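import Pool.Agent.Lib.MP_eac726_al.Defs

namespace EAC

open Matrix

section
variable {F : Type} [Field F] {n m : ℕ} {k : Type} [Field k] [Algebra k F]

theorem BG_rep (u : R k n) :
    (∀ a a', (Tr.base F n).rep k u (Sum.inl a : Fin 1 ⊕ Fin 1) (Sum.inl a' : Fin 1 ⊕ Fin 1)
      = algebraMap k F (eps k n u)) ∧
    (∀ a a', (Tr.base F n).rep k u (Sum.inr a : Fin 1 ⊕ Fin 1) (Sum.inr a' : Fin 1 ⊕ Fin 1)
      = algebraMap k F (eps k n u)) ∧
    (∀ a a', (Tr.base F n).rep k u (Sum.inr a : Fin 1 ⊕ Fin 1) (Sum.inl a' : Fin 1 ⊕ Fin 1)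
      = 0) := by
  induction u using FreeAlgebra.induction with
  | grade0 r =>
    have h1 : (Tr.base F n).rep k (algebraMap k (R k n) r)
        = algebraMap k (Matrix (Tr.base F n).I (Tr.base F n).I F) r := AlgHom.commutes _ r
    have h2 : eps k n (algebraMap k (R k n) r) = r := AlgHom.commutes _ r
    rw [h1, h2]
    refine ⟨fun a a' => ?_, fun a a' => ?_, fun a a' => ?_⟩
    · rw [Matrix.algebraMap_matrix_apply, if_pos (by rw [Subsingleton.elim a a'])]
    · rw [Matrix.algebraMap_matrix_apply, if_pos (by rw [Subsingleton.elim a a'])]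
    · rw [Matrix.algebraMap_matrix_apply, if_neg (by simp)]
  | grade1 s =>
    have h1 : (Tr.base F n).rep k (FreeAlgebra.ι k s) = (Tr.base F n).mx s := by
      unfold Tr.rep
      rw [FreeAlgebra.lift_ι_apply]
    have h2 : eps k n (FreeAlgebra.ι k s) = 0 := by
      unfold eps
      rw [FreeAlgebra.lift_ι_apply]
    have h3 : (Tr.base F n).mx s
        = (if s = lx then Matrix.fromBlocks 0 1 0 0 else 0 :
          Matrix (Fin 1 ⊕ Fin 1) (Fin 1 ⊕ Fin 1) F) := rfl
    rw [h1, h2, h3, map_zero]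
    refine ⟨fun a a' => ?_, fun a a' => ?_, fun a a' => ?_⟩
    · split_ifs <;> rfl
    · split_ifs <;> rfl
    · split_ifs <;> rfl
  | mul a b ha hb =>
    obtain ⟨ha1, ha2, ha3⟩ := ha
    obtain ⟨hb1, hb2, hb3⟩ := hb
    rw [map_mul, map_mul, map_mul]
    have key : ∀ i i' : Fin 1 ⊕ Fin 1, ((Tr.base F n).rep k a * (Tr.base F n).rep k b) i i'
        = (Tr.base F n).rep k a i (Sum.inl 0 : Fin 1 ⊕ Fin 1)
            * (Tr.base F n).rep k b (Sum.inl 0 : Fin 1 ⊕ Fin 1) i'
          + (Tr.base F n).rep k a i (Sum.inr 0 : Fin 1 ⊕ Fin 1)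
            * (Tr.base F n).rep k b (Sum.inr 0 : Fin 1 ⊕ Fin 1) i' := by
      intro i i'
      rw [Matrix.mul_apply]
      change (∑ x : Fin 1 ⊕ Fin 1, (Tr.base F n).rep k a i x * (Tr.base F n).rep k b x i') = _
      rw [Fintype.sum_sum_type]
      simp
    refine ⟨fun x x' => ?_, fun x x' => ?_, fun x x' => ?_⟩
    · rw [key, ha1, hb1, hb3, mul_zero, add_zero]
    · rw [key, ha2, hb2, ha3, zero_mul, zero_add]
    · rw [key, ha3, hb3, zero_mul, mul_zero, add_zero]
  | add a b ha hb =>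
    obtain ⟨ha1, ha2, ha3⟩ := ha
    obtain ⟨hb1, hb2, hb3⟩ := hb
    rw [map_add, map_add, map_add]
    refine ⟨fun x x' => ?_, fun x x' => ?_, fun x x' => ?_⟩
    · rw [Matrix.add_apply, ha1, hb1]
    · rw [Matrix.add_apply, ha2, hb2]
    · rw [Matrix.add_apply, ha3, hb3, add_zero]

theorem BG_x (s : Fin 1) (i : Fin 1 ⊕ Fin 1) :
    (if (lx : Ltr n) = lx then Matrix.fromBlocks 0 1 0 0 else 0 :
      Matrix (Fin 1 ⊕ Fin 1) (Fin 1 ⊕ Fin 1) F) (Sum.inl s) i = if i = Sum.inr s then 1 else 0 := by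
  rw [if_pos rfl]
  rcases i with i | i
  · rw [if_neg (by simp)]
    rfl
  · obtain rfl : i = s := Subsingleton.elim _ _
    rw [if_pos rfl, Matrix.fromBlocks_apply₁₂]
    exact Matrix.one_apply_eq i

theorem base_good (Y : ℕ → (Fin m → R k n)) (l : ℕ) : Good k Y (Tr.base F n) 0 l where
  q_pos := le_rfl
  card_le := by
    change Fintype.card (Fin 1 ⊕ Fin 1) ≤ 3 * 1
    simp
  sum_le := by
    change n * ∑ i : Fin 1 ⊕ Fin 1, ([] : List Bool).length ≤ 16 * 1
    simp
  pr_inj := by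
    intro a b _
    exact Subsingleton.elim (α := Fin 1) a b
  po_inj := by
    intro a b _
    exact Subsingleton.elim (α := Fin 1) a b
  w_pr := fun _ => rfl
  w_po := fun _ => rfl
  x_pr := fun s i => BG_x (n := n) s i
  po_row := by
    intro t s i
    change (if t = lx then Matrix.fromBlocks 0 1 0 0 else 0 :
      Matrix (Fin 1 ⊕ Fin 1) (Fin 1 ⊕ Fin 1) F) (Sum.inr s) i = 0
    rcases i with i | i <;> split_ifs <;> rfl
  depth := by
    intro t i i' _
    exact Nat.zero_le _
  rel := by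
    intro i i' h
    exact absurd h (Nat.not_lt_zero _)
  order := by
    intro u hu i i' h
    obtain ⟨h1, h2, h3⟩ := BG_rep (F := F) u
    rw [hu, map_zero] at h1 h2
    rcases i with i | i
    · rcases i' with i' | i'
      · exact absurd (h1 i i') h
      · exact Or.inr rfl
    · rcases i' with i' | i'
      · exact absurd (h3 i i') h
      · exact absurd (h2 i i') h
  kill := by
    intro τ e i i' h
    exact absurd rfl h

end

end EAC
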