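import Mathlib

/-! # Block triangular representations of a free algebra (helper35) -/

set_option autoImplicit false

namespace EAC

open Matrix

section blk
variable {k F : Type} [Field k] [Field F] [Algebra k F] {X : Type} {I J : Type}
  [Fintype I] [DecidableEq I] [Fintype J] [DecidableEq J]

/-- upper triangular block representation of letters -/
def blk (T : X → Matrix I I F) (D : X → Matrix I J F) (U : X → Matrix J J F) :
    X → Matrix (I ⊕ J) (I ⊕ J) F := fun l => fromBlocks (T l) (D l) 0 (U l)

/-- upper right block -/
noncomputable def lam (k : Type) [Field k] [Algebra k F] (T : X → Matrix I I F)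
    (U : X → Matrix J J F) (D : X → Matrix I J F)
    (u : FreeAlgebra k X) : Matrix I J F :=
  (FreeAlgebra.lift k (blk T D U) u).toBlocks₁₂

theorem lift_blk (T : X → Matrix I I F) (D : X → Matrix I J F) (U : X → Matrix J J F)
    (u : FreeAlgebra k X) :
    (FreeAlgebra.lift k (blk T D U) u) = fromBlocks (FreeAlgebra.lift k T u)
      (lam k T U D u) 0 (FreeAlgebra.lift k U u) := by
  unfold lam
  induction u using FreeAlgebra.induction with
  | grade0 r =>
    simp only [AlgHom.commutes]
    ext (i | i) (j | j) <;> simp [Matrix.algebraMap_matrix_apply, toBlocks₁₂]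
  | grade1 x => 
    simp only [FreeAlgebra.lift_ι_apply, blk, toBlocks_fromBlocks₁₂]
  | mul a b ha hb =>
    rw [map_mul, ha, hb, fromBlocks_multiply]
    simp [map_mul]
  | add a b ha hb =>
    rw [map_add, ha, hb, fromBlocks_add]
    simp [map_add]

theorem lam_mul (T : X → Matrix I I F) (D : X → Matrix I J F) (U : X → Matrix J J F)
    (u v : FreeAlgebra k X) : lam k T U D (u * v) = FreeAlgebra.lift k T u * lam k T U D v +
      lam k T U D u * FreeAlgebra.lift k U v := by
  unfold lam
  rw [map_mul]
  rw [lift_blk T D U u, lift_blk T D U v, fromBlocks_multiply]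
  simp

theorem lam_add_apply (T : X → Matrix I I F) (D : X → Matrix I J F) (U : X → Matrix J J F)
    (u v : FreeAlgebra k X) : lam k T U D (u + v) = lam k T U D u + lam k T U D v := by
  unfold lam
  rw [map_add]
  ext i j
  simp [toBlocks₁₂]

theorem lam_sub_apply (T : X → Matrix I I F) (D : X → Matrix I J F) (U : X → Matrix J J F)
    (u v : FreeAlgebra k X) : lam k T U D (u - v) = lam k T U D u - lam k T U D v := by
  unfold lam
  rw [map_sub]
  ext i j
  simp [toBlocks₁₂]

theorem lam_zero_apply (T : X → Matrix I I F) (D : X → Matrix I J F) (U : X → Matrix J J F) :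
    lam k T U D (0 : FreeAlgebra k X) = 0 := by
  unfold lam
  rw [map_zero]
  ext i j
  simp [toBlocks₁₂]

theorem lam_sum_apply {ι : Type} (s : Finset ι) (T : X → Matrix I I F) (D : X → Matrix I J F)
    (U : X → Matrix J J F) (u : ι → FreeAlgebra k X) :
    lam k T U D (∑ i ∈ s, u i) = ∑ i ∈ s, lam k T U D (u i) := by
  classical
  induction s using Finset.induction_on with
  | empty => simp [lam_zero_apply]
  | insert i s his ih => rw [Finset.sum_insert his, Finset.sum_insert his, lam_add_apply, ih]

theorem lam_algebraMap (T : X → Matrix I I F) (D : X → Matrix I J F) (U : X → Matrix J J F)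
    (r : k) : lam k T U D (algebraMap k _ r) = 0 := by
  unfold lam
  rw [AlgHom.commutes]
  ext i j
  simp [Matrix.algebraMap_matrix_apply, toBlocks₁₂]

theorem lam_ι (T : X → Matrix I I F) (D : X → Matrix I J F) (U : X → Matrix J J F)
    (l : X) : lam k T U D (FreeAlgebra.ι k l) = D l := by
  unfold lam
  rw [FreeAlgebra.lift_ι_apply]
  simp [blk]

theorem lam_addD (T : X → Matrix I I F) (D D' : X → Matrix I J F) (U : X → Matrix J J F)
    (u : FreeAlgebra k X) : lam k T U (D + D') u = lam k T U D u + lam k T U D' u := by
  induction u using FreeAlgebra.induction with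
  | grade0 r => simp [lam_algebraMap]
  | grade1 x => simp [lam_ι]
  | mul a b ha hb => simp only [lam_mul, ha, hb, Matrix.mul_add, Matrix.add_mul]; abel
  | add a b ha hb => simp only [lam_add_apply, ha, hb]; abel

theorem lam_smulD (T : X → Matrix I I F) (D : X → Matrix I J F) (U : X → Matrix J J F) (t : F)
    (u : FreeAlgebra k X) : lam k T U (t • D) u = t • lam k T U D u := by
  induction u using FreeAlgebra.induction with
  | grade0 r => simp [lam_algebraMap]
  | grade1 x => simp [lam_ι]
  | mul a b ha hb => simp only [lam_mul, ha, hb, smul_add, Matrix.mul_smul, Matrix.smul_mul]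
  | add a b ha hb => simp only [lam_add_apply, ha, hb, smul_add]

theorem lift_zero_apply (u : FreeAlgebra k X) :
    FreeAlgebra.lift k (0 : X → Matrix I I F) u
      = (algebraMap k F (FreeAlgebra.lift k (fun _ => (0 : k)) u)) • (1 : Matrix I I F) := by
  induction u using FreeAlgebra.induction with
  | grade0 r =>
    rw [AlgHom.commutes, AlgHom.commutes, Algebra.algebraMap_self_apply,
      IsScalarTower.algebraMap_apply k F (Matrix I I F), Algebra.algebraMap_eq_smul_one]
  | grade1 x => simp
  | mul a b ha hb => simp only [map_mul, ha, hb, Matrix.smul_mul, Matrix.one_mul, smul_smul]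
  | add a b ha hb => simp only [map_add, ha, hb, add_smul]

theorem lam_left {I' : Type} [Fintype I'] [DecidableEq I'] (A : Matrix I' I F)
    (D : X → Matrix I J F) (U : X → Matrix J J F) (u : FreeAlgebra k X) :
    lam k (0 : X → Matrix I' I' F) U (fun l => A * D l) u
      = A * lam k (0 : X → Matrix I I F) U D u := by
  induction u using FreeAlgebra.induction with
  | grade0 r => simp [lam_algebraMap]
  | grade1 x => simp [lam_ι]
  | mul a b ha hb =>
    simp only [lam_mul, ha, hb, lift_zero_apply, Matrix.mul_add, Matrix.smul_mul, Matrix.one_mul,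
      Matrix.mul_smul, Matrix.mul_assoc]
  | add a b ha hb => simp only [lam_add_apply, ha, hb, Matrix.mul_add]

theorem lam_right {J' : Type} [Fintype J'] [DecidableEq J'] (C : Matrix J J' F)
    (D : X → Matrix I J F) (T : X → Matrix I I F) (u : FreeAlgebra k X) :
    lam k T (0 : X → Matrix J' J' F) (fun l => D l * C) u
      = lam k T (0 : X → Matrix J J F) D u * C := by
  induction u using FreeAlgebra.induction with
  | grade0 r => simp [lam_algebraMap]
  | grade1 x => simp [lam_ι]
  | mul a b ha hb =>
    simp only [lam_mul, ha, hb, lift_zero_apply, Matrix.add_mul, Matrix.smul_mul,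
      Matrix.mul_smul, Matrix.mul_one, Matrix.mul_assoc]
  | add a b ha hb => simp only [lam_add_apply, ha, hb, Matrix.add_mul]

/-- the first block of columns of the upper right block -/
theorem lam_cols {K : Type} [Fintype K] [DecidableEq K] (T : X → Matrix I I F)
    (U : X → Matrix J J F) (V : X → Matrix K K F) (E : X → Matrix J K F)
    (D : X → Matrix I J F) (D' : X → Matrix I K F) (u : FreeAlgebra k X) :
    (lam k T (blk U E V) (fun l => Matrix.fromCols (D l) (D' l)) u).toCols₁ = lam k T U D u := by
  induction u using FreeAlgebra.induction with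
  | grade0 r => rw [lam_algebraMap, lam_algebraMap]; rfl
  | grade1 x => rw [lam_ι, lam_ι]; simp
  | mul a b ha hb =>
    rw [lam_mul, lam_mul, ← ha, ← hb, lift_blk]
    ext i j
    simp [Matrix.toCols₁, Matrix.mul_apply, Fintype.sum_sum_type, Matrix.fromBlocks]
  | add a b ha hb =>
    rw [lam_add_apply, lam_add_apply, ← ha, ← hb]
    rfl

end blk

end EAC
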