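import Pool.Agent.Lib.MP_eac726_al.Defs
import Pool.Agent.Lib.MP_eac726_al.Blk

/-! # BL1: blocks of the representation on two copies (helper35) -/

set_option autoImplicit false

namespace EAC

open Matrix

section
variable {F : Type} [Field F] {n m : ℕ} {k : Type} [Field k] [Algebra k F]

theorem lr_eq_blk (T : Tr F n) (β : Matrix (Fin T.q) (Fin T.q) F) :
    T.lr β = blk T.mx (fun s => if s = lb then T.mid β else 0) T.mx := rfl

/-- the representation on two copies of the tree as a block matrix -/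
theorem lrRep_eq (T : Tr F n) (β : Matrix (Fin T.q) (Fin T.q) F) (u : R k n) :
    T.lrRep k β u = fromBlocks (T.rep k u)
      (lam k T.mx T.mx (fun s => if s = lb then T.mid β else 0) u) 0 (T.rep k u) :=
  lift_blk T.mx (fun s => if s = lb then T.mid β else 0) T.mx u

theorem lrRep_blocks (T : Tr F n) (β : Matrix (Fin T.q) (Fin T.q) F) (u : R k n) :
    (T.lrRep k β u).toBlocks₁₁ = T.rep k u ∧ (T.lrRep k β u).toBlocks₂₂ = T.rep k u ∧
      (T.lrRep k β u).toBlocks₂₁ = 0 := by
  rw [lrRep_eq]
  simp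

theorem mid_add (T : Tr F n) (β β' : Matrix (Fin T.q) (Fin T.q) F) :
    T.mid (β + β') = T.mid β + T.mid β' := by
  ext i i'
  simp only [Tr.mid, Matrix.add_apply]
  rw [← Finset.sum_add_distrib]
  refine Finset.sum_congr rfl fun s _ => ?_
  rw [← Finset.sum_add_distrib]
  refine Finset.sum_congr rfl fun s' _ => ?_
  split_ifs <;> simp

theorem mid_smul (T : Tr F n) (t : F) (β : Matrix (Fin T.q) (Fin T.q) F) :
    T.mid (t • β) = t • T.mid β := by
  ext i i'
  simp only [Tr.mid, Matrix.smul_apply, smul_eq_mul]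
  rw [Finset.mul_sum]
  refine Finset.sum_congr rfl fun s _ => ?_
  rw [Finset.mul_sum]
  refine Finset.sum_congr rfl fun s' _ => ?_
  split_ifs <;> simp

theorem lrRep_linear (T : Tr F n) (u : R k n) :
    ∃ D : Matrix (Fin T.q) (Fin T.q) F →ₗ[F] Matrix T.I T.I F,
      ∀ β, (T.lrRep k β u).toBlocks₁₂ = D β := by
  refine ⟨{ toFun := fun β => (T.lrRep k β u).toBlocks₁₂, map_add' := ?_, map_smul' := ?_ },
    fun β => rfl⟩
  · intro β β'
    simp only [lrRep_eq, toBlocks_fromBlocks₁₂]
    rw [← lam_addD]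
    congr 1
    funext s
    by_cases hs : s = lb
    · simp [hs, mid_add]
    · simp [hs]
  · intro t β
    simp only [lrRep_eq, toBlocks_fromBlocks₁₂, RingHom.id_apply]
    rw [← lam_smulD]
    congr 1
    funext s
    by_cases hs : s = lb
    · simp [hs, mid_smul]
    · simp [hs]

end

end EAC
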