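import Pool.Agent.Lib.MP_eac726_al.BL1

/-! # BL2: blocks of the representation of the successor tree (helper35) -/

set_option autoImplicit false

namespace EAC

open Matrix

section
variable {F : Type} [Field F] {n m : ℕ} {k : Type} [Field k] [Algebra k F]

theorem So_eq (T : Tr F n) (β : Matrix (Fin T.q) (Fin T.q) F) (u : R k n) :
    T.So k β u = lam k 0 (T.lr β) T.opn u := rfl

theorem Sc_eq (T : Tr F n) (β : Matrix (Fin T.q) (Fin T.q) F) (u : R k n) :
    T.Sc k β u = lam k (T.lr β) 0 T.cls u := rfl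

theorem lift_zero_eps {I : Type} [Fintype I] [DecidableEq I] (u : R k n) (i j : I) :
    FreeAlgebra.lift k (0 : Ltr n → Matrix I I F) u i j =
      if i = j then algebraMap k F (eps k n u) else 0 := by
  rw [lift_zero_apply]
  simp only [Matrix.smul_apply, Matrix.one_apply, smul_eq_mul, mul_ite, mul_one, mul_zero]
  rfl

/-- the representation of the successor tree in block form -/
theorem succ_rep_eq (T : Tr F n) (β : Matrix (Fin T.q) (Fin T.q) F) (q' : ℕ)
    (A : Matrix (Fin q') (Fin n × Fin T.q) F) (C : Matrix (Fin n × Fin T.q) (Fin q') F)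
    (u : R k n) :
    (T.succ β q' A C).rep k u = fromBlocks
      (FreeAlgebra.lift k (0 : Ltr n → Matrix (Fin q') (Fin q') F) u)
      (lam k (0 : Ltr n → Matrix (Fin q') (Fin q') F)
        (blk (T.lr β) (fun s => T.cls s * C) (0 : Ltr n → Matrix (Fin q') (Fin q') F))
        (fun s => Matrix.fromCols (A * T.opn s) (if s = lx then 1 else 0)) u)
      0
      (fromBlocks (T.lrRep k β u) (T.Sc k β u * C) 0
        (FreeAlgebra.lift k (0 : Ltr n → Matrix (Fin q') (Fin q') F) u)) := by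
  have h := lift_blk (k := k) (0 : Ltr n → Matrix (Fin q') (Fin q') F)
    (fun s => Matrix.fromCols (A * T.opn s) (if s = lx then 1 else 0))
    (blk (T.lr β) (fun s => T.cls s * C) (0 : Ltr n → Matrix (Fin q') (Fin q') F)) u
  rw [lift_blk (T.lr β) (fun s => T.cls s * C) (0 : Ltr n → Matrix (Fin q') (Fin q') F) u,
    lam_right] at h
  exact h

theorem succ_blocks (T : Tr F n) (β : Matrix (Fin T.q) (Fin T.q) F) (q' : ℕ)
    (A : Matrix (Fin q') (Fin n × Fin T.q) F) (C : Matrix (Fin n × Fin T.q) (Fin q') F)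
    (u : R k n) :
    (∀ i j : Fin q', (T.succ β q' A C).rep k u (Sum.inl i) (Sum.inl j) =
      if i = j then algebraMap k F (eps k n u) else 0) ∧
    (∀ (i : Fin q') (j : T.I ⊕ T.I), (T.succ β q' A C).rep k u (Sum.inl i) (Sum.inr (Sum.inl j)) =
      (A * T.So k β u) i j) ∧
    (∀ i j : T.I ⊕ T.I, (T.succ β q' A C).rep k u (Sum.inr (Sum.inl i)) (Sum.inr (Sum.inl j)) =
      T.lrRep k β u i j) ∧
    (∀ (i : T.I ⊕ T.I) (j : Fin q'),
      (T.succ β q' A C).rep k u (Sum.inr (Sum.inl i)) (Sum.inr (Sum.inr j)) =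
      (T.Sc k β u * C) i j) ∧
    (∀ (i : (T.I ⊕ T.I) ⊕ Fin q') (j : Fin q'),
      (T.succ β q' A C).rep k u (Sum.inr i) (Sum.inl j) = 0) ∧
    (∀ (i : Fin q') (j : T.I ⊕ T.I),
      (T.succ β q' A C).rep k u (Sum.inr (Sum.inr i)) (Sum.inr (Sum.inl j)) = 0) ∧
    (∀ i j : Fin q', (T.succ β q' A C).rep k u (Sum.inr (Sum.inr i)) (Sum.inr (Sum.inr j)) =
      if i = j then algebraMap k F (eps k n u) else 0) := by
  have hcol : (lam k (0 : Ltr n → Matrix (Fin q') (Fin q') F)
        (blk (T.lr β) (fun s => T.cls s * C) (0 : Ltr n → Matrix (Fin q') (Fin q') F))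
        (fun s => Matrix.fromCols (A * T.opn s) (if s = lx then 1 else 0)) u).toCols₁ =
      A * T.So k β u := by
    rw [lam_cols, lam_left, So_eq]
  refine ⟨?_, ?_, ?_, ?_, ?_, ?_, ?_⟩
  · intro i j
    rw [succ_rep_eq]
    exact lift_zero_eps u i j
  · intro i j
    rw [succ_rep_eq, ← hcol]
    rfl
  · intro i j
    rw [succ_rep_eq]
    rfl
  · intro i j
    rw [succ_rep_eq]
    rfl
  · intro i j
    rw [succ_rep_eq]
    rfl
  · intro i j
    rw [succ_rep_eq]
    rfl
  · intro i j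
    rw [succ_rep_eq]
    exact lift_zero_eps u i j

end

end EAC
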