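import Pool.Agent.Lib.MP_eac726_al.Defs

namespace EAC

section
variable {Θ : Type}

theorem hit_cons (Y : ℕ → Θ) (τ : Θ) (l : ℕ) (b : Bool) (w : List Bool) :
    hit Y τ l (b :: w) ↔ Y l = τ ∨ hit Y τ (l + 1) w := by
  unfold hit
  constructor
  · rintro ⟨h, hh, hY⟩
    rcases h with _ | h
    · exact Or.inl (by simpa using hY)
    · refine Or.inr ⟨h, by simpa using hh, ?_⟩
      rw [show l + 1 + h = l + (h + 1) by ring]
      exact hY
  · rintro (h | ⟨h, hh, hY⟩)
    · exact ⟨0, by simp, by simpa using h⟩
    · refine ⟨h + 1, by simpa using hh, ?_⟩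
      rw [show l + (h + 1) = l + 1 + h by ring]
      exact hY

theorem anc_eq_none (Y : ℕ → Θ) (τ : Θ) (l : ℕ) (w : List Bool) :
    anc Y τ l w = none ↔ ¬ hit Y τ l w := by
  induction w generalizing l with
  | nil =>
    simp [anc, hit]
  | cons b w ih =>
    rw [hit_cons]
    unfold anc
    rcases h : anc Y τ (l + 1) w with _ | y
    · have h1 : ¬ hit Y τ (l + 1) w := (ih (l + 1)).mp h
      by_cases h2 : Y l = τ
      · simp [h2]
      · simp [h2, h1]
    · have h1 : hit Y τ (l + 1) w := by
        by_contra hcon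
        have := (ih (l + 1)).mpr hcon
        rw [h] at this
        exact absurd this (by simp)
      simp [h1]

end

end EAC
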