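import Pool.Agent.Lib.MP_eac726_al.Defs

/-!
# `MP_eac726_al`: the numbering of the positions is increasing between special nodes
-/

set_option autoImplicit false

namespace EAC

section
variable {Θ : Type}

private lemma co2_hit_cons (Y : ℕ → Θ) (τ : Θ) (l : ℕ) (b : Bool) (w : List Bool) :
    hit Y τ l (b :: w) ↔ Y l = τ ∨ hit Y τ (l + 1) w := by
  constructor
  · rintro ⟨h, hh, he⟩
    cases h with
    | zero => left; simpa using he
    | succ h =>
      right
      refine ⟨h, by simpa using hh, ?_⟩
      rw [← he]
      congr 1
      omega
  · rintro (h | ⟨h, hh, he⟩)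
    · exact ⟨0, by simp, by simpa using h⟩
    · refine ⟨h + 1, by simpa using hh, ?_⟩
      rw [← he]
      congr 1
      omega

private lemma co2_anc (Y : ℕ → Θ) (τ : Θ) (l : ℕ) (w : List Bool) :
    anc Y τ l w = none ↔ ¬ hit Y τ l w := by
  classical
  induction w generalizing l with
  | nil =>
    simp [anc, hit]
  | cons b w ih =>
    have ih' := ih (l + 1)
    rw [co2_hit_cons, anc]
    cases h : anc Y τ (l + 1) w with
    | none =>
      have h1 : ¬ hit Y τ (l + 1) w := ih'.1 h
      by_cases hY : Y l = τ
      · simp [hY]
      · simp [hY, h1]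
    | some y =>
      have h1 : hit Y τ (l + 1) w := by
        by_contra hc
        rw [ih'.2 hc] at h
        exact absurd h (by simp)
      simp [h1]

private lemma co2_le (Y : ℕ → Θ) (τ : Θ) (Lam : ℕ → ℕ)
    (h2 : ∀ l, Y l ≠ τ → 2 * Lam (l + 1) + 3 ≤ Lam l) (w : List Bool) :
    ∀ (l : ℕ) (s : Bool), ¬ hit Y τ l w → ff Y τ Lam l w s ≤ Lam l ∧
      (w ≠ [] → ff Y τ Lam l w s < Lam l) := by
  classical
  induction w with
  | nil =>
    intro l s _
    cases s <;> simp [ff]
  | cons b w ih =>
    intro l s hn
    rw [co2_hit_cons, not_or] at hn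
    obtain ⟨hY, hn'⟩ := hn
    have h3 := h2 l hY
    have h4 := (ih (l + 1) s hn').1
    have h5 : ff Y τ Lam l (b :: w) s < Lam l := by
      cases b
      · rw [ff, if_neg hn']
        omega
      · rw [ff, if_neg hn']
        omega
    exact ⟨h5.le, fun _ => h5⟩

theorem ff_lt (Y : ℕ → Θ) (τ : Θ) (Lam : ℕ → ℕ) (h1 : ∀ l, 1 ≤ Lam l)
    (h2 : ∀ l, Y l ≠ τ → 2 * Lam (l + 1) + 3 ≤ Lam l) (l : ℕ) (w : List Bool) (s : Bool)
    (w' : List Bool) (s' : Bool) (hlt : PLt w s w' s') (hanc : anc Y τ l w = anc Y τ l w') :
    ff Y τ Lam l w s < ff Y τ Lam l w' s' := by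
  classical
  induction w generalizing l w' with
  | nil =>
    have hn : ¬ hit Y τ l w' := by
      rw [← co2_anc, ← hanc]
      simp [anc]
    cases s with
    | true => simp [PLt] at hlt
    | false =>
      rw [ff]
      cases w' with
      | nil =>
        cases s' with
        | false => simp [PLt] at hlt
        | true =>
          rw [ff]
          exact h1 l
      | cons b' w1' =>
        rw [co2_hit_cons, not_or] at hn
        cases b'
        · rw [ff, if_neg hn.2]
          omega
        · rw [ff, if_neg hn.2]
          omega
  | cons b w1 ih =>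
    cases w' with
    | nil =>
      cases s' with
      | false => simp [PLt] at hlt
      | true =>
        have hn : ¬ hit Y τ l (b :: w1) := by
          rw [← co2_anc, hanc]
          simp [anc]
        have h3 : ff Y τ Lam l [] true = Lam l := by rw [ff]
        rw [h3]
        exact (co2_le Y τ Lam h2 _ l s hn).2 (by simp)
    | cons b' w1' =>
      simp only [PLt] at hlt
      cases hA : anc Y τ (l + 1) w1 with
      | none =>
        have hn : ¬ hit Y τ (l + 1) w1 := (co2_anc _ _ _ _).1 hA
        cases hA' : anc Y τ (l + 1) w1' with
        | none =>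
          have hn' : ¬ hit Y τ (l + 1) w1' := (co2_anc _ _ _ _).1 hA'
          rcases hlt with ⟨rfl, rfl⟩ | ⟨rfl, hlt⟩
          · rw [ff, ff, if_neg hn, if_neg hn']
            have := (co2_le Y τ Lam h2 w1 (l + 1) s hn).1
            omega
          · have h3 := ih (l + 1) w1' hlt (by rw [hA, hA'])
            cases b
            · rw [ff, ff, if_neg hn, if_neg hn']
              omega
            · rw [ff, ff, if_neg hn, if_neg hn']
              omega
        | some y' =>
          exfalso
          rw [anc, anc, hA, hA'] at hanc
          simp only at hanc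
          split_ifs at hanc
          · exact absurd (Option.some.inj hanc) (by simp)
      | some y =>
        have hn : hit Y τ (l + 1) w1 := by
          by_contra hc
          rw [(co2_anc _ _ _ _).2 hc] at hA
          exact absurd hA (by simp)
        cases hA' : anc Y τ (l + 1) w1' with
        | none =>
          exfalso
          rw [anc, anc, hA, hA'] at hanc
          simp only at hanc
          split_ifs at hanc
          · exact absurd (Option.some.inj hanc) (by simp)
        | some y' =>
          have hn' : hit Y τ (l + 1) w1' := by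
            by_contra hc
            rw [(co2_anc _ _ _ _).2 hc] at hA'
            exact absurd hA' (by simp)
          rw [anc, anc, hA, hA'] at hanc
          simp only [Option.some.injEq, List.cons.injEq] at hanc
          obtain ⟨rfl, rfl⟩ := hanc
          have hlt' : PLt w1 s w1' s' := by
            rcases hlt with ⟨h3, h4⟩ | ⟨_, hlt⟩
            · rw [h3] at h4
              exact absurd h4 (by simp)
            · exact hlt
          have h3 := ih (l + 1) w1' hlt' (by rw [hA, hA'])
          cases b
          · rw [ff, ff, if_pos hn, if_pos hn']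
            omega
          · rw [ff, ff, if_pos hn, if_pos hn']
            omega

theorem ff_le (Y : ℕ → Θ) (τ : Θ) (Lam : ℕ → ℕ)
    (h2 : ∀ l, Y l ≠ τ → 2 * Lam (l + 1) + 3 ≤ Lam l) (M : ℕ) (hM : ∀ l, Lam l ≤ M)
    (l : ℕ) (w : List Bool) (s : Bool) : ff Y τ Lam l w s ≤ 2 * M + 2 := by
  classical
  induction w generalizing l with
  | nil =>
    cases s
    · simp [ff]
    · rw [ff]
      have := hM l
      omega
  | cons b w ih =>
    by_cases hn : hit Y τ (l + 1) w
    · have := ih (l + 1)
      cases b
      · rw [ff, if_pos hn]
        omega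
      · rw [ff, if_pos hn]
        omega
    · have h3 := (co2_le Y τ Lam h2 w (l + 1) s hn).1
      have h4 := hM (l + 1)
      cases b
      · rw [ff, if_neg hn]
        omega
      · rw [ff, if_neg hn]
        omega

end

end EAC
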