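import Pool.Agent.Lib.MP_eac726_al.Defs

namespace EAC

section
variable {Θ : Type}

/-- The recursion `φ 0 = 1`, `φ (d + 1) = 2 φ d + 3`. -/
def CO3_phi : ℕ → ℕ
  | 0 => 1
  | d + 1 => 2 * CO3_phi d + 3

theorem CO3_phi_mono : Monotone CO3_phi := by
  refine monotone_nat_of_le_succ fun d => ?_
  change CO3_phi d ≤ 2 * CO3_phi d + 3
  omega

theorem CO3_phi_pos (d : ℕ) : 1 ≤ CO3_phi d := by
  cases d with
  | zero => exact le_rfl
  | succ d =>
    change 1 ≤ 2 * CO3_phi d + 3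
    omega

theorem exists_Lam (Y : ℕ → Θ) (τ : Θ) (G : ℕ) (hG : ∀ l, ∃ h, l ≤ h ∧ h < l + G ∧ Y h = τ) :
    ∃ (Lam : ℕ → ℕ) (M : ℕ), (∀ l, 1 ≤ Lam l) ∧ (∀ l, Y l ≠ τ → 2 * Lam (l + 1) + 3 ≤ Lam l) ∧
      ∀ l, Lam l ≤ M := by
  classical
  have hG' : ∀ l, ∃ d, Y (l + d) = τ := fun l => by
    obtain ⟨h, h1, -, h3⟩ := hG l
    exact ⟨h - l, by rw [Nat.add_sub_cancel' h1]; exact h3⟩
  refine ⟨fun l => CO3_phi (Nat.find (hG' l)), CO3_phi G, fun l => CO3_phi_pos _, ?_, ?_⟩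
  · intro l hl
    beta_reduce
    have h1 : Nat.find (hG' l) = Nat.find (hG' (l + 1)) + 1 := by
      rw [Nat.find_eq_iff]
      refine ⟨?_, ?_⟩
      · have := Nat.find_spec (hG' (l + 1))
        rw [show l + (Nat.find (hG' (l + 1)) + 1) = l + 1 + Nat.find (hG' (l + 1)) by ring]
        exact this
      · intro d hd
        rcases d with _ | d
        · exact hl
        · have := Nat.find_min (hG' (l + 1)) (m := d) (by omega)
          rw [show l + (d + 1) = l + 1 + d by ring]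
          exact this
    rw [h1]
    exact le_rfl
  · intro l
    refine CO3_phi_mono ?_
    obtain ⟨h, h1, h2, h3⟩ := hG l
    have : Nat.find (hG' l) ≤ h - l := Nat.find_min' (hG' l) (by
      rw [Nat.add_sub_cancel' h1]; exact h3)
    omega

theorem CO3_val (k q : ℕ) : padicValNat 2 (2 ^ k * (2 * q + 1)) = k := by
  rw [padicValNat.mul (by positivity) (by omega), padicValNat.prime_pow,
    padicValNat.eq_zero_of_not_dvd (by omega)]
  rfl

theorem exists_Y (Θ : Type) [Countable Θ] [Nonempty Θ] :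
    ∃ Y : ℕ → Θ, ∀ τ, ∃ G, ∀ l, ∃ h, l ≤ h ∧ h < l + G ∧ Y h = τ := by
  obtain ⟨f, hf⟩ := exists_surjective_nat Θ
  refine ⟨fun h => f (padicValNat 2 (h + 1)), fun τ => ?_⟩
  obtain ⟨k, rfl⟩ := hf τ
  refine ⟨2 ^ (k + 2), fun l => ?_⟩
  set q : ℕ := l / 2 ^ (k + 1) + 1 with hq
  have h0 : 0 < 2 ^ k := by positivity
  have h1 : 2 ^ (k + 1) * (l / 2 ^ (k + 1)) ≤ l := Nat.mul_div_le l _
  have h2 : l < 2 ^ (k + 1) * (l / 2 ^ (k + 1) + 1) := Nat.lt_mul_div_succ l (by positivity)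
  have e1 : 2 ^ (k + 1) = 2 * 2 ^ k := by ring
  have e2 : 2 ^ (k + 2) = 4 * 2 ^ k := by ring
  have e3 : 2 ^ k * (2 * q + 1) = 2 ^ (k + 1) * (l / 2 ^ (k + 1)) + 3 * 2 ^ k := by
    rw [hq, e1]; ring
  have e4 : 2 ^ (k + 1) * (l / 2 ^ (k + 1) + 1) = 2 ^ (k + 1) * (l / 2 ^ (k + 1)) + 2 * 2 ^ k := by
    rw [e1]; ring
  refine ⟨2 ^ k * (2 * q + 1) - 1, ?_, ?_, ?_⟩
  · omega
  · omega
  · have : 2 ^ k * (2 * q + 1) - 1 + 1 = 2 ^ k * (2 * q + 1) := by omega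
    beta_reduce
    rw [this, CO3_val]

instance countable_freeAlgebra (k : Type) [Field k] [Countable k] (n : ℕ) : Countable (R k n) := by
  rw [← Cardinal.mk_le_aleph0_iff]
  refine (FreeAlgebra.cardinalMk_le_max k (Ltr n)).trans ?_
  refine max_le (max_le ?_ ?_) le_rfl
  · exact Cardinal.mk_le_aleph0
  · exact Cardinal.mk_le_aleph0

end

end EAC
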