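import Pool.Agent.Lib.MP_eac726_al.Defs

namespace EAC

open Matrix

theorem deg_bound {F : Type} [Field F] {n m : ℕ} {k : Type} [Field k] [Algebra k F]
    (u : R k n) : ∃ d : ℕ, ∀ (Y : ℕ → (Fin m → R k n)) (T : Tr F n) (j l : ℕ), Good k Y T j l →
      ∀ i i', T.rep k u i i' ≠ 0 → (T.w i').length ≤ (T.w i).length + d := by
  induction u using FreeAlgebra.induction with
  | grade0 r =>
    refine ⟨0, fun Y T j l _ i i' h => ?_⟩
    have h1 : T.rep k (algebraMap k (R k n) r) = algebraMap k (Matrix T.I T.I F) r :=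
      AlgHom.commutes _ r
    rw [h1, Matrix.algebraMap_matrix_apply] at h
    by_cases hi : i = i'
    · rw [hi]; omega
    · rw [if_neg hi] at h
      exact absurd rfl h
  | grade1 s =>
    refine ⟨1, fun Y T j l hT i i' h => ?_⟩
    have h1 : T.rep k (FreeAlgebra.ι k s) = T.mx s := by
      unfold Tr.rep
      rw [FreeAlgebra.lift_ι_apply]
    rw [h1] at h
    exact hT.depth s i i' h
  | mul a b ha hb =>
    obtain ⟨d, hd⟩ := ha
    obtain ⟨d', hd'⟩ := hb
    refine ⟨d + d', fun Y T j l hT i i' h => ?_⟩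
    rw [map_mul, Matrix.mul_apply] at h
    obtain ⟨x, -, hx⟩ := Finset.exists_ne_zero_of_sum_ne_zero h
    have h1 := hd Y T j l hT i x (left_ne_zero_of_mul hx)
    have h2 := hd' Y T j l hT x i' (right_ne_zero_of_mul hx)
    omega
  | add a b ha hb =>
    obtain ⟨d, hd⟩ := ha
    obtain ⟨d', hd'⟩ := hb
    refine ⟨d + d', fun Y T j l hT i i' h => ?_⟩
    rw [map_add, Matrix.add_apply] at h
    by_cases h0 : T.rep k a i i' = 0
    · rw [h0, zero_add] at h
      have h2 := hd' Y T j l hT i i' h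
      omega
    · have h1 := hd Y T j l hT i i' h0
      omega

end EAC
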