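import Mathlib

/-!
# `MP_eac726_al`: definitions

Finite tree representations of the free algebra on the letters `x, b, a_i, c_i`.

Positions of a (relative) binary tree: `(w, false)` = position just before the subtree at the
node `w : List Bool` (`pre w`), `(w, true)` = position just after it (`post w`).  Every position
carries a copy of a coordinate space; letters act by matrices (row vector convention, so words
act from left to right).
-/

namespace EAC

open Matrix

/-- letters: `inl false = x`, `inl true = b`, `inr (false, i) = a_i`, `inr (true, i) = c_i` -/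
abbrev Ltr (n : ℕ) : Type := Bool ⊕ (Bool × Fin n)

abbrev lx {n : ℕ} : Ltr n := Sum.inl false
abbrev lb {n : ℕ} : Ltr n := Sum.inl true
abbrev la {n : ℕ} (i : Fin n) : Ltr n := Sum.inr (false, i)
abbrev lc {n : ℕ} (i : Fin n) : Ltr n := Sum.inr (true, i)

/-- the free algebra on the letters -/
abbrev R (k : Type) [Field k] (n : ℕ) : Type := FreeAlgebra k (Ltr n)

/-- the letters as elements of the free algebra -/
abbrev gx (k : Type) [Field k] (n : ℕ) : R k n := FreeAlgebra.ι k lx
abbrev gb (k : Type) [Field k] (n : ℕ) : R k n := FreeAlgebra.ι k lb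
abbrev ga (k : Type) [Field k] {n : ℕ} (i : Fin n) : R k n := FreeAlgebra.ι k (la i)
abbrev gc (k : Type) [Field k] {n : ℕ} (i : Fin n) : R k n := FreeAlgebra.ι k (lc i)

/-- the word `W = ∑ a_i x b x c_i` -/
noncomputable def gW (k : Type) [Field k] (n : ℕ) : R k n :=
  ∑ i : Fin n, ga k i * gx k n * gb k n * gx k n * gc k i

/-- the constant term -/
noncomputable def eps (k : Type) [Field k] (n : ℕ) : R k n →ₐ[k] k :=
  FreeAlgebra.lift k (fun _ => (0 : k))

/-- a finite tree representation: index type `I` (basis), `w i` = node, `sd i` = side (before /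
after the node), `pr`, `po` = basis at the root positions, `mx s` = matrix of the letter `s` -/
structure Tr (F : Type) (n : ℕ) : Type 1 where
  I : Type
  [fI : Fintype I]
  [dI : DecidableEq I]
  q : ℕ
  w : I → List Bool
  sd : I → Bool
  pr : Fin q → I
  po : Fin q → I
  mx : Ltr n → Matrix I I F

attribute [instance] Tr.fI Tr.dI

section
variable {F : Type} [Field F] {n : ℕ}

/-- the representation of the free algebra -/
noncomputable def Tr.rep (k : Type) [Field k] [Algebra k F] (T : Tr F n) :
    R k n →ₐ[k] Matrix T.I T.I F :=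
  FreeAlgebra.lift k T.mx

/-- the connection of the right end of the left subtree with the left end of the right subtree -/
def Tr.mid (T : Tr F n) (β : Matrix (Fin T.q) (Fin T.q) F) : Matrix T.I T.I F :=
  fun i i' => ∑ s, ∑ s', if i = T.po s ∧ i' = T.pr s' then β s s' else 0

/-- letters on two copies of `T` (left, right) -/
def Tr.lr (T : Tr F n) (β : Matrix (Fin T.q) (Fin T.q) F) (s : Ltr n) :
    Matrix (T.I ⊕ T.I) (T.I ⊕ T.I) F :=
  Matrix.fromBlocks (T.mx s) (if s = lb then T.mid β else 0) 0 (T.mx s)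

noncomputable def Tr.lrRep (k : Type) [Field k] [Algebra k F] (T : Tr F n)
    (β : Matrix (Fin T.q) (Fin T.q) F) : R k n →ₐ[k] Matrix (T.I ⊕ T.I) (T.I ⊕ T.I) F :=
  FreeAlgebra.lift k (T.lr β)

/-- universal opening of the parent node -/
def Tr.opn (T : Tr F n) : Ltr n → Matrix (Fin n × Fin T.q) (T.I ⊕ T.I) F
  | Sum.inr (false, t) => fun e j => if e.1 = t ∧ j = Sum.inl (T.pr e.2) then 1 else 0
  | _ => 0

/-- universal closing of the parent node -/
def Tr.cls (T : Tr F n) : Ltr n → Matrix (T.I ⊕ T.I) (Fin n × Fin T.q) F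
  | Sum.inr (true, t) => fun j e => if e.1 = t ∧ j = Sum.inr (T.po e.2) then 1 else 0
  | _ => 0

/-- representation used to read off the openings -/
noncomputable def Tr.opRep (k : Type) [Field k] [Algebra k F] (T : Tr F n)
    (β : Matrix (Fin T.q) (Fin T.q) F) :
    R k n →ₐ[k] Matrix ((Fin n × Fin T.q) ⊕ (T.I ⊕ T.I)) ((Fin n × Fin T.q) ⊕ (T.I ⊕ T.I)) F :=
  FreeAlgebra.lift k (fun s => Matrix.fromBlocks 0 (T.opn s) 0 (T.lr β s))

/-- representation used to read off the closings -/
noncomputable def Tr.clRep (k : Type) [Field k] [Algebra k F] (T : Tr F n)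
    (β : Matrix (Fin T.q) (Fin T.q) F) :
    R k n →ₐ[k] Matrix ((T.I ⊕ T.I) ⊕ (Fin n × Fin T.q)) ((T.I ⊕ T.I) ⊕ (Fin n × Fin T.q)) F :=
  FreeAlgebra.lift k (fun s => Matrix.fromBlocks (T.lr β s) (T.cls s) 0 0)

/-- the opening block of `u` -/
noncomputable def Tr.So (k : Type) [Field k] [Algebra k F] (T : Tr F n)
    (β : Matrix (Fin T.q) (Fin T.q) F) (u : R k n) : Matrix (Fin n × Fin T.q) (T.I ⊕ T.I) F :=
  (T.opRep k β u).toBlocks₁₂

/-- the closing block of `u` -/
noncomputable def Tr.Sc (k : Type) [Field k] [Algebra k F] (T : Tr F n)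
    (β : Matrix (Fin T.q) (Fin T.q) F) (u : R k n) : Matrix (T.I ⊕ T.I) (Fin n × Fin T.q) F :=
  (T.clRep k β u).toBlocks₁₂

/-- the tree one level higher: root `pre` and `post` with `q'` basis vectors, `A` = opening
matrix, `C` = closing matrix -/
def Tr.succ (T : Tr F n) (β : Matrix (Fin T.q) (Fin T.q) F) (q' : ℕ)
    (A : Matrix (Fin q') (Fin n × Fin T.q) F) (C : Matrix (Fin n × Fin T.q) (Fin q') F) :
    Tr F n where
  I := Fin q' ⊕ ((T.I ⊕ T.I) ⊕ Fin q')
  q := q'
  w := fun i => match i with
    | Sum.inl _ => []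
    | Sum.inr (Sum.inl (Sum.inl i)) => false :: T.w i
    | Sum.inr (Sum.inl (Sum.inr i)) => true :: T.w i
    | Sum.inr (Sum.inr _) => []
  sd := fun i => match i with
    | Sum.inl _ => false
    | Sum.inr (Sum.inl (Sum.inl i)) => T.sd i
    | Sum.inr (Sum.inl (Sum.inr i)) => T.sd i
    | Sum.inr (Sum.inr _) => true
  pr := fun s => Sum.inl s
  po := fun s => Sum.inr (Sum.inr s)
  mx := fun s => Matrix.fromBlocks 0
    (Matrix.fromCols (A * T.opn s) (if s = lx then 1 else 0)) 0
    (Matrix.fromBlocks (T.lr β s) (T.cls s * C) 0 0)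

/-- the tree of height `0`: one leaf -/
def Tr.base (F : Type) [Field F] (n : ℕ) : Tr F n where
  I := Fin 1 ⊕ Fin 1
  q := 1
  w := fun _ => []
  sd := fun i => match i with
    | Sum.inl _ => false
    | Sum.inr _ => true
  pr := fun s => Sum.inl s
  po := fun s => Sum.inr s
  mx := fun s => if s = lx then Matrix.fromBlocks 0 1 0 0 else 0

/-- the word of a position in the left / right subtree -/
def lrw (T : Tr F n) : T.I ⊕ T.I → List Bool
  | Sum.inl i => false :: T.w i
  | Sum.inr i => true :: T.w i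

/-- `1 ⊗ β` -/
def tens (n : ℕ) {q : ℕ} (β : Matrix (Fin q) (Fin q) F) :
    Matrix (Fin n × Fin q) (Fin n × Fin q) F :=
  fun e e' => if e.1 = e'.1 then β e.2 e'.2 else 0

end

/-! ### combinatorics of positions -/

section comb
variable {Θ : Type}

/-- some level `l + h`, `h < |w|`, is special for `τ` -/
def hit (Y : ℕ → Θ) (τ : Θ) (l : ℕ) (w : List Bool) : Prop := ∃ h < w.length, Y (l + h) = τ

open Classical in
/-- the deepest proper prefix of `w` which is special for `τ` (root of the tree at level `l`) -/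
noncomputable def anc (Y : ℕ → Θ) (τ : Θ) : ℕ → List Bool → Option (List Bool)
  | _, [] => none
  | l, (b :: w) =>
    match anc Y τ (l + 1) w with
    | some y => some (b :: y)
    | none => if Y l = τ then some [] else none

open Classical in
/-- numbering of the positions, restarted at special nodes -/
noncomputable def ff (Y : ℕ → Θ) (τ : Θ) (Lam : ℕ → ℕ) : ℕ → List Bool → Bool → ℕ
  | _, [], false => 0
  | l, [], true => Lam l
  | l, (false :: w), s => ff Y τ Lam (l + 1) w s + (if hit Y τ (l + 1) w then 0 else 1)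
  | l, (true :: w), s =>
    ff Y τ Lam (l + 1) w s + (if hit Y τ (l + 1) w then 0 else Lam (l + 1) + 2)

/-- order of positions along the tree word -/
def PLt : List Bool → Bool → List Bool → Bool → Prop
  | [], false, w', s' => w' ≠ [] ∨ s' = true
  | [], true, _, _ => False
  | (_ :: _), _, [], false => False
  | (_ :: _), _, [], true => True
  | (b :: w), s, (b' :: w'), s' => (b = false ∧ b' = true) ∨ (b = b' ∧ PLt w s w' s')

end comb

/-- all properties of a tree of height `j` whose root is at level `l`; `Y h` is the tuple to be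
killed at level `h` -/
structure Good {F : Type} [Field F] {n m : ℕ} (k : Type) [Field k] [Algebra k F]
    (Y : ℕ → (Fin m → R k n)) (T : Tr F n) (j l : ℕ) : Prop where
  q_pos : 1 ≤ T.q
  card_le : Fintype.card T.I ≤ 3 * T.q
  sum_le : n * ∑ i : T.I, (T.w i).length ≤ 16 * T.q
  pr_inj : Function.Injective T.pr
  po_inj : Function.Injective T.po
  w_pr : ∀ s, T.w (T.pr s) = []
  w_po : ∀ s, T.w (T.po s) = []
  x_pr : ∀ s i, T.mx lx (T.pr s) i = if i = T.po s then 1 else 0
  po_row : ∀ t s i, T.mx t (T.po s) i = 0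
  depth : ∀ t i i', T.mx t i i' ≠ 0 → (T.w i').length ≤ (T.w i).length + 1
  rel : ∀ i i', (T.w i).length < j → T.rep k (gx k n - gW k n) i i' = 0
  order : ∀ u : R k n, eps k n u = 0 → ∀ i i', T.rep k u i i' ≠ 0 →
    PLt (T.w i) (T.sd i) (T.w i') (T.sd i')
  kill : ∀ (τ : Fin m → R k n) (e : Fin m) (i i' : T.I),
    anc Y τ l (T.w i) ≠ anc Y τ l (T.w i') → T.rep k (τ e) i i' = 0

/-- the ring-theoretic input for the group construction -/
structure Core (p : ℕ) : Type 1 where
  B : Type
  [ring : Ring B]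
  hp : (p : B) = 0
  H : AddSubgroup B
  mul_left : ∀ b h : B, h ∈ H → b * h ∈ H
  mul_right : ∀ b h : B, h ∈ H → h * b ∈ H
  nz : ∃ h ∈ H, h ≠ 0
  prime : ∀ z ∈ H, ∀ w ∈ H, z ≠ 0 → w ≠ 0 → ∃ r ∈ H, z * r * w ≠ 0
  span : ∀ w ∈ H, w ≠ 0 → ∀ h ∈ H, h ∈ AddSubgroup.closure {y | ∃ s ∈ H, ∃ t ∈ H, y = s * w * t}
  nil : ∀ S : Fin 18 → B, (∀ i, S i ∈ H) → ∃ N : ℕ, ∀ L : List (Fin 18), L.length = N →
    (L.map S).prod = 0

attribute [instance] Core.ring

end EAC
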