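import Pool.Agent.Lib.MP_eac726_al.GroupC

/-! From an algebra to a simple group: the statement used in the assembly (part of MP_eac726_al). -/

set_option autoImplicit false

namespace EAC

theorem exists_group (p : ℕ) (hp : p.Prime) (R : Type) [Ring R] (hpR : (p : R) = 0)
    (A : TwoSidedIdeal R) (x : R) (hxA : x ∈ A) (hx0 : x ≠ 0) (n : ℕ) (a c : Fin n → R) (b : R)
    (hx : x = ∑ i, a i * x * b * x * c i)
    (hnil : ∀ t : Fin 18 → R, (∀ i, t i ∈ A) → ∃ N : ℕ, ∀ l : List (Fin 18), l.length = N →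
      (l.map t).prod = 0) :
    ∃ (G : Type) (_ : Group G), Infinite G ∧ IsPGroup p G ∧
      (∀ a b : G, ((Subgroup.closure ({a, b} : Set G)) : Set G).Finite) ∧ IsSimpleGroup G :=
  Pool.Agent.Lib.MP_eac726_al.GP.exists_group p hp R hpR A x hxA hx0 n a c b hx hnil

end EAC
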