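import Mathlib

/-! Nilpotent families of ring elements: finiteness and exponent (part of MP_eac726_al). -/

set_option autoImplicit false

namespace Pool.Agent.Lib.MP_eac726_al

namespace GP

variable {R : Type} [Ring R] {ι : Type} [Finite ι]

/-- additive subgroup generated by the products of at least `m` members of the family -/
def SS (t : ι → R) (m : ℕ) : AddSubgroup R :=
  AddSubgroup.closure {v | ∃ l : List ι, m ≤ l.length ∧ v = (l.map t).prod}

omit [Finite ι] in
theorem SS_mul (t : ι → R) (m k : ℕ) {a b : R} (ha : a ∈ SS t m) (hb : b ∈ SS t k) :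
    a * b ∈ SS t (m + k) := by
  unfold SS at ha
  induction ha using AddSubgroup.closure_induction with
  | mem v hv =>
    obtain ⟨l, hl, rfl⟩ := hv
    unfold SS at hb
    induction hb using AddSubgroup.closure_induction with
    | mem w hw =>
      obtain ⟨l', hl', rfl⟩ := hw
      refine AddSubgroup.subset_closure ⟨l ++ l', ?_, ?_⟩
      · rw [List.length_append]; omega
      · rw [List.map_append, List.prod_append]
    | zero => rw [mul_zero]; exact AddSubgroup.zero_mem _
    | add w w' _ _ h1 h2 => rw [mul_add]; exact AddSubgroup.add_mem _ h1 h2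
    | neg w _ h1 => rw [mul_neg]; exact AddSubgroup.neg_mem _ h1
  | zero => rw [zero_mul]; exact AddSubgroup.zero_mem _
  | add w w' _ _ h1 h2 => rw [add_mul]; exact AddSubgroup.add_mem _ h1 h2
  | neg w _ h1 => rw [neg_mul]; exact AddSubgroup.neg_mem _ h1

omit [Finite ι] in
theorem SS_mem (t : ι → R) (i : ι) : t i ∈ SS t 1 :=
  AddSubgroup.subset_closure ⟨[i], by simp, by simp⟩

omit [Finite ι] in
theorem SS_anti (t : ι → R) {m k : ℕ} (h : m ≤ k) : SS t k ≤ SS t m := by
  refine AddSubgroup.closure_mono ?_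
  rintro v ⟨l, hl, rfl⟩
  exact ⟨l, h.trans hl, rfl⟩

omit [Finite ι] in
theorem prod_zero (t : ι → R) (N : ℕ) (hN : ∀ l : List ι, l.length = N → (l.map t).prod = 0)
    (l : List ι) (hl : N ≤ l.length) : (l.map t).prod = 0 := by
  have h1 := hN (l.take N) (by rw [List.length_take]; omega)
  rw [← List.take_append_drop N l, List.map_append, List.prod_append, h1, zero_mul]

omit [Finite ι] in
theorem SS_bot (t : ι → R) (N : ℕ) (hN : ∀ l : List ι, l.length = N → (l.map t).prod = 0)
    {m : ℕ} (hm : N ≤ m) {a : R} (ha : a ∈ SS t m) : a = 0 := by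
  have h : SS t m ≤ ⊥ := by
    unfold SS
    rw [AddSubgroup.closure_le]
    rintro v ⟨l, hl, rfl⟩
    rw [prod_zero t N hN l (hm.trans hl)]
    exact AddSubgroup.zero_mem _
  simpa using h ha

theorem SS_finite (p : ℕ) (hp : p.Prime) (hpR : (p : R) = 0) (t : ι → R) (N : ℕ)
    (hN : ∀ l : List ι, l.length = N → (l.map t).prod = 0) (m : ℕ) :
    ((SS t m : AddSubgroup R) : Set R).Finite := by
  have hfin : Set.Finite {v | ∃ l : List ι, m ≤ l.length ∧ v = (l.map t).prod} := by
    have h1 : Set.Finite {l : List ι | l.length < N} := List.finite_length_lt ι N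
    refine ((h1.image (fun l => (l.map t).prod)).union (Set.finite_singleton 0)).subset ?_
    rintro v ⟨l, _, rfl⟩
    by_cases h : l.length < N
    · exact Or.inl ⟨l, h, rfl⟩
    · right
      exact prod_zero t N hN l (not_lt.mp h)
  have : Finite {v | ∃ l : List ι, m ≤ l.length ∧ v = (l.map t).prod} := hfin
  have hfg : AddGroup.FG (SS t m) := AddGroup.closure_finite_fg _
  have htor : IsAddTorsion (SS t m) := by
    intro x
    rw [isOfFinAddOrder_iff_nsmul_eq_zero]
    refine ⟨p, hp.pos, ?_⟩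
    ext
    rw [AddSubgroup.coe_nsmul, nsmul_eq_mul, hpR, zero_mul]
    rfl
  have := AddCommGroup.finite_of_fg_isAddTorsion (SS t m) htor
  exact Set.toFinite _

omit [Finite ι] in
/-- matrices with entries in `SS t m` -/
theorem mat_pow (t : ι → R) (a : Matrix (Fin 3) (Fin 3) R) (ha : ∀ i j, a i j ∈ SS t 1) (m : ℕ) :
    ∀ i j, (a ^ (m + 1)) i j ∈ SS t (m + 1) := by
  induction m with
  | zero => simpa using ha
  | succ m ih =>
    intro i j
    rw [pow_succ, Matrix.mul_apply]
    exact AddSubgroup.sum_mem _ fun k _ => SS_mul t (m + 1) 1 (ih i k) (ha k j)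

omit [Finite ι] in
theorem mat_one_add_pow (p : ℕ) (hp : p.Prime) (hpR : (p : R) = 0) (t : ι → R) (N : ℕ)
    (hN : ∀ l : List ι, l.length = N → (l.map t).prod = 0)
    (a : Matrix (Fin 3) (Fin 3) R) (ha : ∀ i j, a i j ∈ SS t 1) :
    ∃ k : ℕ, (1 + a) ^ p ^ k = 1 := by
  rcases subsingleton_or_nontrivial R with hR | hR
  · exact ⟨0, Subsingleton.elim _ _⟩
  have : Fact p.Prime := ⟨hp⟩
  have : CharP R p := (CharP.charP_iff_prime_eq_zero hp).mpr hpR
  refine ⟨N + 1, ?_⟩
  rw [add_pow_char_pow_of_commute _ _ (Commute.one_left a), one_pow]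
  have h1 : N + 1 < p ^ (N + 1) := Nat.lt_pow_self hp.one_lt
  obtain ⟨m, hm⟩ : ∃ m, p ^ (N + 1) = m + 1 := ⟨p ^ (N + 1) - 1, by omega⟩
  have h2 : a ^ p ^ (N + 1) = 0 := by
    ext i j
    rw [hm]
    exact SS_bot t N hN (by omega) (mat_pow t a ha m i j)
  rw [h2, add_zero]

end GP

end Pool.Agent.Lib.MP_eac726_al
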