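import Pool.Agent.Lib.MP_eac726_al.GroupA

/-! The elementary group over a prime ring with heart is simple (part of MP_eac726_al). -/

set_option autoImplicit false

namespace Pool.Agent.Lib.MP_eac726_al

namespace GP

open Matrix

variable {R : Type} [Ring R]

theorem ss0 (i j k l : Fin 3) (h : j ≠ k) (c d : R) :
    Matrix.single i j c * Matrix.single k l d = 0 := Matrix.single_mul_single_of_ne c i j k h d

/-- the elementary unit `1 + h e_ij` -/
def eU (i j : Fin 3) (hij : i ≠ j) (h : R) : (Matrix (Fin 3) (Fin 3) R)ˣ where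
  val := 1 + Matrix.single i j h
  inv := 1 - Matrix.single i j h
  val_inv := by
    rw [add_mul, one_mul, mul_sub, mul_one, ss0 i j i j hij.symm]
    abel
  inv_val := by
    rw [sub_mul, one_mul, mul_add, mul_one, ss0 i j i j hij.symm]
    abel

theorem eU_val (i j : Fin 3) (hij : i ≠ j) (h : R) :
    ((eU i j hij h : (Matrix (Fin 3) (Fin 3) R)ˣ) : Matrix (Fin 3) (Fin 3) R) =
      1 + Matrix.single i j h := rfl

theorem eU_inv (i j : Fin 3) (hij : i ≠ j) (h : R) :
    (((eU i j hij h)⁻¹ : (Matrix (Fin 3) (Fin 3) R)ˣ) : Matrix (Fin 3) (Fin 3) R) =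
      1 - Matrix.single i j h := rfl

theorem eU_zero (i j : Fin 3) (hij : i ≠ j) : eU i j hij (0 : R) = 1 := by
  ext1
  rw [eU_val, Matrix.single_zero, add_zero, Units.val_one]

theorem eU_add (i j : Fin 3) (hij : i ≠ j) (h h' : R) :
    eU i j hij (h + h') = eU i j hij h * eU i j hij h' := by
  ext1
  rw [Units.val_mul, eU_val, eU_val, eU_val, add_mul, one_mul, mul_add, mul_one,
    ss0 i j i j hij.symm, Matrix.single_add]
  abel

theorem eU_neg (i j : Fin 3) (hij : i ≠ j) (h : R) : eU i j hij (-h) = (eU i j hij h)⁻¹ := by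
  ext1
  rw [eU_inv, eU_val, ← Matrix.single_neg, sub_eq_add_neg]

/-- the commutator relation -/
theorem eU_comm (i j k : Fin 3) (hij : i ≠ j) (hjk : j ≠ k) (hik : i ≠ k) (h h' : R) :
    eU i j hij h * eU j k hjk h' * (eU i j hij h)⁻¹ * (eU j k hjk h')⁻¹ = eU i k hik (h * h') := by
  ext1
  rw [Units.val_mul, Units.val_mul, Units.val_mul, eU_inv, eU_inv, eU_val, eU_val, eU_val]
  set Y := Matrix.single i j h
  set W := Matrix.single j k h'
  have hYY : Y * Y = 0 := ss0 i j i j hij.symm h h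
  have hWW : W * W = 0 := ss0 j k j k hjk.symm h' h'
  have hWY : W * Y = 0 := ss0 j k i j hik.symm h' h
  have hYW : Y * W = Matrix.single i k (h * h') := Matrix.single_mul_single_same h i j k h'
  rw [← hYW]
  have e1 : (1 + Y) * (1 + W) * (1 - Y) = 1 + W + Y * W := by
    have : (1 + Y) * (1 + W) * (1 - Y) =
      1 + W + Y * W - Y * Y - W * Y - Y * (W * Y) := by noncomm_ring
    rw [this, hYY, hWY, mul_zero, sub_zero, sub_zero, sub_zero]
  have e2 : (1 + W + Y * W) * (1 - W) = 1 + Y * W := by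
    have : (1 + W + Y * W) * (1 - W) = 1 + Y * W - W * W - Y * (W * W) := by noncomm_ring
    rw [this, hWW, mul_zero, sub_zero, sub_zero]
  rw [e1, e2]

/-- the elementary group -/
def EG (H : TwoSidedIdeal R) : Subgroup (Matrix (Fin 3) (Fin 3) R)ˣ :=
  Subgroup.closure {u | ∃ i j, ∃ hij : i ≠ j, ∃ h ∈ H, u = eU i j hij h}

theorem eU_mem (H : TwoSidedIdeal R) (i j : Fin 3) (hij : i ≠ j) {h : R} (hh : h ∈ H) :
    eU i j hij h ∈ EG H := Subgroup.subset_closure ⟨i, j, hij, h, hh, rfl⟩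

theorem EG_entries (H : TwoSidedIdeal R) {g : (Matrix (Fin 3) (Fin 3) R)ˣ} (hg : g ∈ EG H) :
    ∀ i j, ((g : Matrix (Fin 3) (Fin 3) R) - 1) i j ∈ H := by
  unfold EG at hg
  have key : (∀ i j, ((g : Matrix (Fin 3) (Fin 3) R) - 1) i j ∈ H) ∧
      (∀ i j, (((g⁻¹ : (Matrix (Fin 3) (Fin 3) R)ˣ) : Matrix (Fin 3) (Fin 3) R) - 1) i j ∈ H) := by
    induction hg using Subgroup.closure_induction with
    | mem u hu =>
      obtain ⟨i, j, hij, h, hh, rfl⟩ := hu
      constructor
      · intro k l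
        rw [eU_val, add_sub_cancel_left, Matrix.single_apply]
        split_ifs
        · exact hh
        · exact H.zero_mem
      · intro k l
        rw [eU_inv, sub_sub_cancel_left, Matrix.neg_apply, Matrix.single_apply]
        split_ifs
        · exact H.neg_mem hh
        · rw [neg_zero]; exact H.zero_mem
    | one =>
      constructor
      · intro i j
        rw [Units.val_one, sub_self]
        exact H.zero_mem
      · intro i j
        rw [inv_one, Units.val_one, sub_self]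
        exact H.zero_mem
    | mul u v _ _ h1 h2 =>
      have gen : ∀ A B : Matrix (Fin 3) (Fin 3) R, (∀ i j, (A - 1) i j ∈ H) →
          (∀ i j, (B - 1) i j ∈ H) → ∀ i j, (A * B - 1) i j ∈ H := by
        intro A B hA hB i j
        have e : A * B - 1 = (A - 1) * (B - 1) + (A - 1) + (B - 1) := by noncomm_ring
        rw [e, Matrix.add_apply, Matrix.add_apply, Matrix.mul_apply]
        refine H.add_mem (H.add_mem ?_ (hA i j)) (hB i j)
        exact sum_mem fun k _ => H.mul_mem_right _ _ (hA i k)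
      constructor
      · rw [Units.val_mul]
        exact gen _ _ h1.1 h2.1
      · rw [_root_.mul_inv_rev, Units.val_mul]
        exact gen _ _ h2.2 h1.2
    | inv u _ h1 =>
      rw [inv_inv]
      exact ⟨h1.2, h1.1⟩
  exact key.1

section simple

variable (H : TwoSidedIdeal R) (N : Subgroup (Matrix (Fin 3) (Fin 3) R)ˣ)
  (hN : ∀ g ∈ EG H, ∀ n ∈ N, g * n * g⁻¹ ∈ N)

include hN in
theorem comm_mem {g n : (Matrix (Fin 3) (Fin 3) R)ˣ} (hg : g ∈ EG H) (hn : n ∈ N) :
    n * g * n⁻¹ * g⁻¹ ∈ N := by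
  have h := N.mul_mem hn (hN g hg n⁻¹ (N.inv_mem hn))
  have e : n * g * n⁻¹ * g⁻¹ = n * (g * n⁻¹ * g⁻¹) := by group
  rw [e]
  exact h

include hN in
theorem comm_mem' {g n : (Matrix (Fin 3) (Fin 3) R)ˣ} (hg : g ∈ EG H) (hn : n ∈ N) :
    g * n * g⁻¹ * n⁻¹ ∈ N := N.mul_mem (hN g hg n hn) (N.inv_mem hn)

/-- some nonzero elementary element of position `(i,k)` lies in `N` -/
def NZ (i k : Fin 3) : Prop := ∃ hik : i ≠ k, ∃ w : R, w ≠ 0 ∧ w ∈ H ∧ eU i k hik w ∈ N

variable (h1 : ∀ z w : R, z ≠ 0 → w ≠ 0 → ∃ h ∈ H, z * h * w ≠ 0)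
  (h2 : ∀ w : R, w ≠ 0 → ∀ y ∈ H, y ∈ AddSubgroup.closure
    {v | ∃ h ∈ H, ∃ h' ∈ H, v = h * w * h'})

include h2 in
theorem full_of (i k : Fin 3) (hik : i ≠ k) {w : R} (hw : w ≠ 0)
    (h : ∀ h ∈ H, ∀ h' ∈ H, eU i k hik (h * w * h') ∈ N) :
    ∀ y ∈ H, eU i k hik y ∈ N := by
  intro y hy
  have hy' := h2 w hw y hy
  induction hy' using AddSubgroup.closure_induction with
  | mem v hv =>
    obtain ⟨a, ha, b, hb, rfl⟩ := hv
    exact h a ha b hb
  | zero => rw [eU_zero]; exact N.one_mem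
  | add u v hu hv h3 h4 =>
    have hmem : ∀ u, u ∈ AddSubgroup.closure {v | ∃ h ∈ H, ∃ h' ∈ H, v = h * w * h'} → u ∈ H := by
      intro u hu
      induction hu using AddSubgroup.closure_induction with
      | mem v hv =>
        obtain ⟨a, ha, b, hb, rfl⟩ := hv
        exact H.mul_mem_left _ _ hb
      | zero => exact H.zero_mem
      | add _ _ _ _ h5 h6 => exact H.add_mem h5 h6
      | neg _ _ h5 => exact H.neg_mem h5
    rw [eU_add]
    exact N.mul_mem (h3 (hmem u hu)) (h4 (hmem v hv))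
  | neg u hu h3 =>
    rw [eU_neg]
    have : u ∈ H := by
      have := H.neg_mem hy
      rwa [neg_neg] at this
    exact N.inv_mem (h3 this)

include hN h2 in
theorem NZ_full (i k j : Fin 3) (hij : i ≠ j) (hkj : k ≠ j) (h : NZ H N i k) :
    (∀ y ∈ H, eU j i hij.symm y ∈ N) ∧ (∀ y ∈ H, eU k j hkj y ∈ N) := by
  obtain ⟨hik, w, hw0, hwH, hwN⟩ := h
  constructor
  · refine full_of H N h2 j i hij.symm hw0 ?_
    intro a ha b hb
    have e1 := comm_mem' H N hN (eU_mem H j i hij.symm ha) hwN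
    rw [eU_comm j i k hij.symm hik hkj.symm] at e1
    have e2 := comm_mem H N hN (eU_mem H k i hik.symm hb) e1
    rw [eU_comm j k i hkj.symm hik.symm hij.symm] at e2
    exact e2
  · refine full_of H N h2 k j hkj hw0 ?_
    intro a ha b hb
    have e1 := comm_mem' H N hN (eU_mem H k i hik.symm ha)
      (comm_mem H N hN (eU_mem H k j hkj hb) hwN)
    rw [eU_comm i k j hik hkj hij, eU_comm k i j hik.symm hij hkj] at e1
    rw [mul_assoc]
    exact e1

include hN h1 in
theorem NZ_step [Nontrivial R] (i k j : Fin 3) (hij : i ≠ j) (hkj : k ≠ j) (h : NZ H N i k) :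
    NZ H N i j := by
  obtain ⟨hik, w, hw0, hwH, hwN⟩ := h
  obtain ⟨s, hs, hs0⟩ := h1 w 1 hw0 one_ne_zero
  rw [mul_one] at hs0
  refine ⟨hij, w * s, hs0, H.mul_mem_left _ _ hs, ?_⟩
  have e1 := comm_mem H N hN (eU_mem H k j hkj hs) hwN
  rw [eU_comm i k j hik hkj hij] at e1
  exact e1

theorem three (i k j a : Fin 3) (hik : i ≠ k) (hij : i ≠ j) (hkj : k ≠ j) :
    a = i ∨ a = k ∨ a = j := by
  revert i k j a
  decide

theorem third (i k : Fin 3) : ∃ j, i ≠ j ∧ k ≠ j := by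
  revert i k
  decide

include hN h1 h2 in
theorem all_full [Nontrivial R] (i k : Fin 3) (h : NZ H N i k) (hH : ∃ x ∈ H, x ≠ 0) :
    EG H ≤ N := by
  obtain ⟨x, hxH, hx0⟩ := hH
  have step : ∀ i k j, i ≠ j → k ≠ j → i ≠ k → NZ H N i k → NZ H N j i ∧ NZ H N k j ∧ NZ H N i j := by
    intro i k j hij hkj hik h
    obtain ⟨f1, f2⟩ := NZ_full H N hN h2 i k j hij hkj h
    exact ⟨⟨hij.symm, x, hx0, hxH, f1 x hxH⟩, ⟨hkj, x, hx0, hxH, f2 x hxH⟩,
      NZ_step H N hN h1 i k j hij hkj h⟩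
  obtain ⟨j, hij, hkj⟩ := third i k
  have hik : i ≠ k := h.1
  obtain ⟨hji, hkj', hij'⟩ := step i k j hij hkj hik h
  obtain ⟨hki, hjk, -⟩ := step i j k hik hkj.symm hij hij'
  have all : ∀ a b, a ≠ b → NZ H N a b := by
    intro a b hab
    rcases three i k j a hik hij hkj with rfl | rfl | rfl <;>
      rcases three _ _ _ b hik hij hkj with rfl | rfl | rfl
    all_goals first | exact absurd rfl hab | assumption
  unfold EG
  rw [Subgroup.closure_le]
  rintro u ⟨a, b, hab, y, hy, rfl⟩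
  obtain ⟨c, hac, hbc⟩ := third a b
  have hbc' := all b c hbc
  exact (NZ_full H N hN h2 b c a hab.symm hac.symm hbc').1 y hy

include hN h1 in
/-- the first two commutators -/
theorem NZ_of [Nontrivial R] {g : (Matrix (Fin 3) (Fin 3) R)ˣ} (hgN : g ∈ N) (hg1 : g ≠ 1)
    {z : R} (hz0 : z ≠ 0)
    (hz : ∀ i j, ((g : Matrix (Fin 3) (Fin 3) R) - 1) i j * z = 0) : ∃ i k, NZ H N i k := by
  set a : Matrix (Fin 3) (Fin 3) R := (g : Matrix (Fin 3) (Fin 3) R) - 1 with ha
  set a' : Matrix (Fin 3) (Fin 3) R :=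
    ((g⁻¹ : (Matrix (Fin 3) (Fin 3) R)ˣ) : Matrix (Fin 3) (Fin 3) R) - 1 with ha'
  have hg : (g : Matrix (Fin 3) (Fin 3) R) = 1 + a := by rw [ha]; abel
  have hg' : ((g⁻¹ : (Matrix (Fin 3) (Fin 3) R)ˣ) : Matrix (Fin 3) (Fin 3) R) = 1 + a' := by
    rw [ha']; abel
  have hinv1 : (1 + a) * (1 + a') = 1 := by rw [← hg, ← hg', Units.mul_inv]
  have hinv2 : (1 + a') * (1 + a) = 1 := by rw [← hg, ← hg', Units.inv_mul]
  have haa : a' = -a - a' * a := by
    have e : (1 + a') * (1 + a) = 1 + a' + a + a' * a := by noncomm_ring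
    rw [e] at hinv2
    have : 1 + a' + a + a' * a - 1 = 0 := by rw [hinv2, sub_self]
    have h5 : a' - (-a - a' * a) = 0 := by
      rw [← this]
      abel
    exact sub_eq_zero.mp h5
  have hz' : ∀ i j, a' i j * z = 0 := by
    intro i j
    rw [haa, Matrix.sub_apply, Matrix.neg_apply, Matrix.mul_apply, sub_mul, neg_mul, hz i j,
      Finset.sum_mul]
    rw [Finset.sum_eq_zero, neg_zero, sub_zero]
    intro k _
    rw [mul_assoc, hz k j, mul_zero]
  have ha0 : a' ≠ 0 := by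
    intro h0
    apply hg1
    have : g⁻¹ = 1 := by
      ext1
      rw [hg', h0, add_zero, Units.val_one]
    rwa [inv_eq_one] at this
  obtain ⟨j, l, hjl⟩ : ∃ j l, a' j l ≠ 0 := by
    by_contra hcon
    push Not at hcon
    exact ha0 (by ext i j; exact hcon i j)
  obtain ⟨i, hji, hli⟩ := third j l
  obtain ⟨r, hrH, hr0⟩ := h1 z (a' j l) hz0 hjl
  obtain ⟨k, hik, hlk⟩ := third i l
  obtain ⟨s, hsH, hs0⟩ := h1 (z * r * a' j l) 1 hr0 one_ne_zero
  rw [mul_one] at hs0
  have hzr : z * r ∈ H := H.mul_mem_left _ _ hrH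
  -- first commutator
  have n1 := comm_mem H N hN (eU_mem H i j hji.symm hzr) hgN
  set n := g * eU i j hji.symm (z * r) * g⁻¹ * (eU i j hji.symm (z * r))⁻¹ with hn
  set Z := Matrix.single i j (z * r) with hZ
  set Y := Z * a' with hY
  have haZ : a * Z = 0 := by
    ext u v
    rw [Matrix.mul_apply]
    refine Finset.sum_eq_zero ?_
    intro w _
    rw [hZ, Matrix.single_apply]
    split_ifs with hc
    · rw [← hc.1, ← mul_assoc, hz u i, zero_mul]
    · rw [mul_zero]
  have ha'Z : a' * Z = 0 := by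
    ext u v
    rw [Matrix.mul_apply]
    refine Finset.sum_eq_zero ?_
    intro w _
    rw [hZ, Matrix.single_apply]
    split_ifs with hc
    · rw [← hc.1, ← mul_assoc, hz' u i, zero_mul]
    · rw [mul_zero]
  have hZZ : Z * Z = 0 := ss0 i j i j hji _ _
  have hnv : (n : Matrix (Fin 3) (Fin 3) R) = 1 + Y := by
    rw [hn, Units.val_mul, Units.val_mul, Units.val_mul, eU_inv, eU_val, hg, hg']
    have e1 : (1 + a) * (1 + Z) * (1 + a') * (1 - Z) =
        (1 + a) * (1 + a') - (1 + a) * (1 + a') * Z + Z + Z * a' - Z * Z - Z * (a' * Z)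
          + a * Z * (1 + a') * (1 - Z) := by noncomm_ring
    rw [← hZ, e1, hinv1, haZ, ha'Z, hZZ]
    rw [hY]
    noncomm_ring
  have hYY : Y * Y = 0 := by
    rw [hY, mul_assoc, ← mul_assoc a' Z a', ha'Z, zero_mul, mul_zero]
  have hninv : ((n⁻¹ : (Matrix (Fin 3) (Fin 3) R)ˣ) : Matrix (Fin 3) (Fin 3) R) = 1 - Y := by
    have e1 : ((n⁻¹ : (Matrix (Fin 3) (Fin 3) R)ˣ) : Matrix (Fin 3) (Fin 3) R) * (1 + Y) = 1 := by
      rw [← hnv, Units.inv_mul]
    have e2 : (1 + Y) * (1 - Y) = 1 := by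
      have : (1 + Y) * (1 - Y) = 1 - Y * Y := by noncomm_ring
      rw [this, hYY, sub_zero]
    calc ((n⁻¹ : (Matrix (Fin 3) (Fin 3) R)ˣ) : Matrix (Fin 3) (Fin 3) R)
        = ((n⁻¹ : (Matrix (Fin 3) (Fin 3) R)ˣ) : Matrix (Fin 3) (Fin 3) R) *
          ((1 + Y) * (1 - Y)) := by rw [e2, mul_one]
      _ = 1 - Y := by rw [← mul_assoc, e1, one_mul]
  -- second commutator
  have n2 := comm_mem H N hN (eU_mem H l k hlk hsH) n1
  set W := Matrix.single l k s with hW
  have hWY : W * Y = 0 := by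
    rw [hY, ← mul_assoc, hW, hZ, ss0 l k i j hik.symm, zero_mul]
  have hWW : W * W = 0 := ss0 l k l k hlk.symm _ _
  have hYW : Y * W = Matrix.single i k (z * r * a' j l * s) := by
    rw [hY, hW, hZ]
    exact Matrix.single_mul_mul_single i j l k (z * r) a' s
  have hfin : n * eU l k hlk s * n⁻¹ * (eU l k hlk s)⁻¹ =
      eU i k hik (z * r * a' j l * s) := by
    ext1
    rw [Units.val_mul, Units.val_mul, Units.val_mul, hninv, hnv, eU_inv, eU_val, eU_val, ← hYW]
    have e1 : (1 + Y) * (1 + W) * (1 - Y) = 1 + W + Y * W := by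
      have : (1 + Y) * (1 + W) * (1 - Y) =
        1 + W + Y * W - Y * Y - W * Y - Y * (W * Y) := by noncomm_ring
      rw [this, hYY, hWY, mul_zero, sub_zero, sub_zero, sub_zero]
    have e2 : (1 + W + Y * W) * (1 - W) = 1 + Y * W := by
      have : (1 + W + Y * W) * (1 - W) = 1 + Y * W - W * W - Y * (W * W) := by noncomm_ring
      rw [this, hWW, mul_zero, sub_zero, sub_zero]
    rw [← hW, e1, e2]
  rw [hfin] at n2
  exact ⟨i, k, hik, _, hs0, H.mul_mem_left _ _ hsH, n2⟩

end simple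

end GP

end Pool.Agent.Lib.MP_eac726_al
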