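import Pool.Agent.Lib.MP_eac726_al.GroupC

/-! From an algebra to a simple group, for `k` elements (part of MP_eac726_al). -/

set_option autoImplicit false

namespace Pool.Agent.Lib.MP_eac726_al

namespace GP

open Matrix

section groupK

variable {R : Type} [Ring R]

/-- nilpotency passes to smaller finite families -/
theorem nil_of_card {H : TwoSidedIdeal R} {m : ℕ}
    (hnil : ∀ t : Fin m → R, (∀ i, t i ∈ H) → ∃ N : ℕ, ∀ l : List (Fin m), l.length = N →
      (l.map t).prod = 0) {ι : Type} [Fintype ι] (hc : Fintype.card ι ≤ m) (t : ι → R)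
    (ht : ∀ i, t i ∈ H) :
    ∃ N : ℕ, ∀ l : List ι, l.length = N → (l.map t).prod = 0 := by
  classical
  have hc' : Fintype.card ι ≤ Fintype.card (Fin m) := by rwa [Fintype.card_fin]
  obtain ⟨e⟩ := Function.Embedding.nonempty_of_card_le hc'
  obtain ⟨N, hN⟩ := hnil (fun q => if h : ∃ i, e i = q then t h.choose else 0) (by
    intro q
    split_ifs with h
    · exact ht _
    · exact H.zero_mem)
  refine ⟨N, fun l hl => ?_⟩
  have h1 := hN (l.map e) (by rw [List.length_map, hl])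
  rw [List.map_map] at h1
  rw [← h1]
  congr 1
  refine List.map_congr_left ?_
  intro i _
  have h : ∃ i', e i' = e i := ⟨i, rfl⟩
  have h2 : h.choose = i := e.injective h.choose_spec
  simp only [Function.comp_apply, dif_pos h, h2]

variable (H : TwoSidedIdeal R) {m : ℕ}
  (hnil : ∀ t : Fin m → R, (∀ i, t i ∈ H) → ∃ N : ℕ, ∀ l : List (Fin m), l.length = N →
    (l.map t).prod = 0)

include hnil in
theorem kary_EG {k : ℕ} (hm : 9 * k + 18 ≤ m) (p : ℕ) (hp : p.Prime) (hpR : (p : R) = 0)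
    (s : Fin k → EG H) :
    ((Subgroup.closure (Set.range s)) : Set (EG H)).Finite := by
  have h18 : ∀ t : Fin 18 → R, (∀ i, t i ∈ H) → ∃ N : ℕ, ∀ l : List (Fin 18), l.length = N →
      (l.map t).prod = 0 :=
    fun t ht => nil_of_card hnil (by rw [Fintype.card_fin]; omega) t ht
  set t : Fin k × Fin 3 × Fin 3 → R :=
    fun q => ((s q.1 : (Matrix (Fin 3) (Fin 3) R)ˣ).val - 1) q.2.1 q.2.2 with ht
  obtain ⟨N, hN⟩ := nil_of_card hnil (ι := Fin k × Fin 3 × Fin 3)
    (by simp only [Fintype.card_prod, Fintype.card_fin]; omega) t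
    (fun q => EG_entries H (s q.1).2 _ _)
  have hfin := SS_finite p hp hpR t N hN 1
  have hmul : ∀ A B : Matrix (Fin 3) (Fin 3) R, (∀ i j, (A - 1) i j ∈ SS t 1) →
      (∀ i j, (B - 1) i j ∈ SS t 1) → ∀ i j, (A * B - 1) i j ∈ SS t 1 := by
    intro A B hA hB i j
    have e : A * B - 1 = (A - 1) * (B - 1) + (A - 1) + (B - 1) := by noncomm_ring
    rw [e, Matrix.add_apply, Matrix.add_apply, Matrix.mul_apply]
    refine AddSubgroup.add_mem _ (AddSubgroup.add_mem _ ?_ (hA i j)) (hB i j)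
    exact AddSubgroup.sum_mem _ fun k _ => SS_anti t (by norm_num) (SS_mul t 1 1 (hA i k) (hB k j))
  have hone : ∀ i j, ((1 : Matrix (Fin 3) (Fin 3) R) - 1) i j ∈ SS t 1 := by
    intro i j
    rw [sub_self]
    exact AddSubgroup.zero_mem _
  have hpow : ∀ A : Matrix (Fin 3) (Fin 3) R, (∀ i j, (A - 1) i j ∈ SS t 1) → ∀ n : ℕ,
      ∀ i j, (A ^ n - 1) i j ∈ SS t 1 := by
    intro A hA n
    induction n with
    | zero => rw [pow_zero]; exact hone
    | succ n ih => rw [pow_succ]; exact hmul _ _ ih hA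
  let T : Subgroup (EG H) :=
    { carrier := {g | ∀ i j, ((g : (Matrix (Fin 3) (Fin 3) R)ˣ).val - 1) i j ∈ SS t 1}
      one_mem' := by
        show ∀ i j, (((1 : EG H) : (Matrix (Fin 3) (Fin 3) R)ˣ).val - 1) i j ∈ SS t 1
        rw [Subgroup.coe_one, Units.val_one]
        exact hone
      mul_mem' := by
        intro u v hu hv
        show ∀ i j, (((u * v : EG H) : (Matrix (Fin 3) (Fin 3) R)ˣ).val - 1) i j ∈ SS t 1
        rw [Subgroup.coe_mul, Units.val_mul]
        exact hmul _ _ hu hv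
      inv_mem' := by
        intro u hu
        show ∀ i j, (((u⁻¹ : EG H) : (Matrix (Fin 3) (Fin 3) R)ˣ).val - 1) i j ∈ SS t 1
        obtain ⟨k, hk⟩ := isPGroup_EG H h18 p hp hpR u
        have hpk : 0 < p ^ k := pow_pos hp.pos k
        have e : u⁻¹ = u ^ (p ^ k - 1) := by
          rw [inv_eq_iff_mul_eq_one, ← pow_succ', Nat.sub_add_cancel hpk, hk]
        rw [e, Subgroup.coe_pow, Units.val_pow_eq_pow_val]
        exact hpow _ hu _ }
  have hTfin : (T : Set (EG H)).Finite := by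
    have hinj : Set.InjOn (fun g : EG H => (g : (Matrix (Fin 3) (Fin 3) R)ˣ).val - 1)
        (T : Set (EG H)) := by
      intro u _ v _ huv
      have huv' : (u : (Matrix (Fin 3) (Fin 3) R)ˣ).val - 1 =
        (v : (Matrix (Fin 3) (Fin 3) R)ˣ).val - 1 := huv
      ext1
      ext1
      exact sub_left_injective huv'
    refine Set.Finite.of_finite_image ?_ hinj
    have hM : Set.Finite {M : Fin 3 → Fin 3 → R | ∀ i j, M i j ∈ (SS t 1 : Set R)} := by
      have h1 : {M : Fin 3 → Fin 3 → R | ∀ i j, M i j ∈ (SS t 1 : Set R)} =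
        Set.pi Set.univ (fun _ : Fin 3 => Set.pi Set.univ (fun _ : Fin 3 => (SS t 1 : Set R))) := by
        ext M
        simp
      rw [h1]
      exact Set.Finite.pi (fun _ => Set.Finite.pi (fun _ => hfin))
    refine hM.subset ?_
    rintro _ ⟨g, hg, rfl⟩
    exact hg
  refine hTfin.subset ?_
  rw [SetLike.coe_subset_coe, Subgroup.closure_le]
  intro g hg
  obtain ⟨q, rfl⟩ := hg
  intro i j
  exact SS_mem t (q, i, j)

theorem exists_group_of_heart_k [Nontrivial R] (k : ℕ) {m : ℕ} (hm : 9 * k + 18 ≤ m) (p : ℕ)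
    (hp : p.Prime) (hpR : (p : R) = 0)
    (hH : ∃ x ∈ H, x ≠ 0)
    (h1 : ∀ z w : R, z ≠ 0 → w ≠ 0 → ∃ h ∈ H, z * h * w ≠ 0)
    (h2 : ∀ w : R, w ≠ 0 → ∀ y ∈ H, y ∈ AddSubgroup.closure
      {v | ∃ h ∈ H, ∃ h' ∈ H, v = h * w * h'})
    (hnil' : ∀ t : Fin m → R, (∀ i, t i ∈ H) → ∃ N : ℕ, ∀ l : List (Fin m), l.length = N →
      (l.map t).prod = 0) :
    ∃ (G : Type) (_ : Group G), Infinite G ∧ IsPGroup p G ∧
      (∀ s : Fin k → G, ((Subgroup.closure (Set.range s)) : Set G).Finite) ∧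
      IsSimpleGroup G := by
  have hnil : ∀ t : Fin 18 → R, (∀ i, t i ∈ H) → ∃ N : ℕ, ∀ l : List (Fin 18), l.length = N →
      (l.map t).prod = 0 :=
    fun t ht => nil_of_card hnil' (by rw [Fintype.card_fin]; omega) t ht
  have hP := isPGroup_EG H hnil p hp hpR
  obtain ⟨x, hxH, hx0⟩ := hH
  obtain ⟨s, hs, hxs⟩ := h1 x 1 hx0 one_ne_zero
  rw [mul_one] at hxs
  have h01 : (0 : Fin 3) ≠ 1 := by decide
  have h12 : (1 : Fin 3) ≠ 2 := by decide
  have h02 : (0 : Fin 3) ≠ 2 := by decide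
  have hne : ∀ (i j : Fin 3) (hij : i ≠ j) (y : R), y ≠ 0 → eU i j hij y ≠ 1 := by
    intro i j hij y hy h
    have h3 := congrArg (fun u : (Matrix (Fin 3) (Fin 3) R)ˣ => (u : Matrix (Fin 3) (Fin 3) R) i j) h
    have h4 : ((eU i j hij y : (Matrix (Fin 3) (Fin 3) R)ˣ) : Matrix (Fin 3) (Fin 3) R) i j =
      ((1 : (Matrix (Fin 3) (Fin 3) R)ˣ) : Matrix (Fin 3) (Fin 3) R) i j := h3
    rw [eU_val, Units.val_one, Matrix.add_apply, Matrix.single_apply_same, Matrix.one_apply_ne hij,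
      zero_add] at h4
    exact hy h4
  have hnon : ∃ a b : EG H, a * b ≠ b * a := by
    refine ⟨⟨eU 0 1 h01 x, eU_mem H 0 1 h01 hxH⟩, ⟨eU 1 2 h12 s, eU_mem H 1 2 h12 hs⟩, ?_⟩
    intro h
    have h3 := congrArg Subtype.val h
    have h4 : eU 0 1 h01 x * eU 1 2 h12 s = eU 1 2 h12 s * eU 0 1 h01 x := h3
    have h5 := eU_comm 0 1 2 h01 h12 h02 x s
    rw [h4, mul_inv_cancel_right, mul_inv_cancel] at h5
    exact hne 0 2 h02 _ hxs h5.symm
  have hsimple : IsSimpleGroup (EG H) := by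
    have hnt : Nontrivial (EG H) := by
      obtain ⟨a, b, hab⟩ := hnon
      refine ⟨a * b, b * a, hab⟩
    refine { eq_bot_or_eq_top_of_normal := ?_ }
    intro N hNn
    by_cases hbot : N = ⊥
    · exact Or.inl hbot
    right
    obtain ⟨g, hgN, hg1⟩ : ∃ g ∈ N, g ≠ 1 := by
      by_contra hcon
      push Not at hcon
      exact hbot ((Subgroup.eq_bot_iff_forall N).mpr hcon)
    set N' : Subgroup (Matrix (Fin 3) (Fin 3) R)ˣ := N.map (EG H).subtype with hN'
    have hconj : ∀ g ∈ EG H, ∀ n ∈ N', g * n * g⁻¹ ∈ N' := by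
      rintro g hg _ ⟨n, hn, rfl⟩
      have hmem : (⟨g, hg⟩ : EG H) * n * (⟨g, hg⟩ : EG H)⁻¹ ∈ N := hNn.conj_mem n hn ⟨g, hg⟩
      have h8 := Subgroup.mem_map_of_mem (EG H).subtype hmem
      rw [map_mul, map_mul, map_inv] at h8
      exact h8
    have hgN' : (g : (Matrix (Fin 3) (Fin 3) R)ˣ) ∈ N' := ⟨g, hgN, rfl⟩
    have hg1' : (g : (Matrix (Fin 3) (Fin 3) R)ˣ) ≠ 1 := by
      intro h
      exact hg1 (Subtype.ext h)
    have hge := EG_entries H g.2
    obtain ⟨M, hM⟩ := nil18 H hnil _ (mem_tt H hge hge)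
    obtain ⟨z, hz0, hz⟩ := exists_ann _ M hM
    obtain ⟨i, k', hNZ⟩ := NZ_of H N' hconj h1 hgN' hg1' hz0 (fun i j => hz (0, i, j))
    have hall := all_full H N' hconj h1 h2 i k' hNZ ⟨x, hxH, hx0⟩
    rw [eq_top_iff]
    intro u _
    obtain ⟨v, hv, hvu⟩ := hall u.2
    have : v = u := Subtype.ext hvu
    exact this ▸ hv
  refine ⟨EG H, inferInstance, ?_, hP, kary_EG H hnil' hm p hp hpR, hsimple⟩
  by_contra hinf
  rw [not_infinite_iff_finite] at hinf
  have : Fact p.Prime := ⟨hp⟩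
  have hc := hP.center_nontrivial
  rcases hsimple.eq_bot_or_eq_top_of_normal (Subgroup.center (EG H)) inferInstance with h | h
  · exact ((Subgroup.nontrivial_iff_ne_bot _).mp hc) h
  · obtain ⟨a, b, hab⟩ := hnon
    have ha : a ∈ Subgroup.center (EG H) := by rw [h]; trivial
    exact hab ((Subgroup.mem_center_iff.mp ha b).symm)

end groupK

theorem exists_group_k (k : ℕ) {m : ℕ} (hm : 9 * k + 18 ≤ m) (p : ℕ) (hp : p.Prime) (R : Type) [Ring R] (hpR : (p : R) = 0)
    (A : TwoSidedIdeal R) (x : R) (hxA : x ∈ A) (hx0 : x ≠ 0) (n : ℕ) (a c : Fin n → R) (b : R)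
    (hx : x = ∑ i, a i * x * b * x * c i)
    (hnil : ∀ t : Fin m → R, (∀ i, t i ∈ A) → ∃ N : ℕ, ∀ l : List (Fin m), l.length = N →
      (l.map t).prod = 0) :
    ∃ (G : Type) (_ : Group G), Infinite G ∧ IsPGroup p G ∧
      (∀ s : Fin k → G, ((Subgroup.closure (Set.range s)) : Set G).Finite) ∧
      IsSimpleGroup G := by
  obtain ⟨I, hxI, hImax⟩ := exists_maximal_ideal x hx0
  let Q := I.ringCon.Quotient
  let π : R →+* Q := I.ringCon.mk'
  have hπ : Function.Surjective π := I.ringCon.mk'_surjective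
  have hker : ∀ r : R, π r = 0 ↔ r ∈ I := by
    intro r
    rw [← TwoSidedIdeal.mem_ker, TwoSidedIdeal.ker_ringCon_mk']
  have hx0' : π x ≠ 0 := by
    rw [Ne, hker]
    exact hxI
  have hnt : Nontrivial Q := ⟨π x, 0, hx0'⟩
  have hh : ∀ J : TwoSidedIdeal Q, (∃ z ∈ J, z ≠ 0) → π x ∈ J := by
    rintro J ⟨z, hzJ, hz0⟩
    by_contra hcon
    have hcomap : x ∉ J.comap π := by
      rw [TwoSidedIdeal.mem_comap]
      exact hcon
    have hle : I ≤ J.comap π := by
      intro u hu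
      rw [TwoSidedIdeal.mem_comap, (hker u).mpr hu]
      exact J.zero_mem
    have heq := hImax _ hle hcomap
    obtain ⟨w, rfl⟩ := hπ z
    have hw : w ∈ J.comap π := by
      rw [TwoSidedIdeal.mem_comap]
      exact hzJ
    rw [heq, ← hker] at hw
    exact hz0 hw
  have hx' : π x = ∑ i, π (a i) * π x * π b * π x * π (c i) := by
    conv_lhs => rw [hx]
    rw [map_sum]
    refine Finset.sum_congr rfl fun i _ => ?_
    rw [map_mul, map_mul, map_mul, map_mul]
  obtain ⟨h1, h2⟩ := heart_props (π x) hx0' n (fun i => π (a i)) (fun i => π (c i)) (π b) hx' hh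
  have himg : ∀ h ∈ TwoSidedIdeal.span {π x}, ∃ r ∈ A, π r = h := by
    let A' : TwoSidedIdeal Q := TwoSidedIdeal.mk' {h | ∃ r ∈ A, π r = h}
      ⟨0, A.zero_mem, map_zero π⟩
      (by
        rintro u v ⟨r, hr, rfl⟩ ⟨s, hs, rfl⟩
        exact ⟨r + s, A.add_mem hr hs, map_add π r s⟩)
      (by
        rintro u ⟨r, hr, rfl⟩
        exact ⟨-r, A.neg_mem hr, map_neg π r⟩)
      (by
        rintro u v ⟨r, hr, rfl⟩
        obtain ⟨s, rfl⟩ := hπ u
        exact ⟨s * r, A.mul_mem_left _ _ hr, map_mul π s r⟩)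
      (by
        rintro u v ⟨r, hr, rfl⟩
        obtain ⟨s, rfl⟩ := hπ v
        exact ⟨r * s, A.mul_mem_right _ _ hr, map_mul π r s⟩)
    have hle : TwoSidedIdeal.span {π x} ≤ A' := by
      rw [TwoSidedIdeal.span_le]
      rintro y rfl
      rw [SetLike.mem_coe, TwoSidedIdeal.mem_mk']
      exact ⟨x, hxA, rfl⟩
    intro h hh
    have := hle hh
    rw [TwoSidedIdeal.mem_mk'] at this
    exact this
  refine exists_group_of_heart_k (TwoSidedIdeal.span {π x}) k hm p hp ?_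
    ⟨π x, TwoSidedIdeal.subset_span rfl, hx0'⟩ h1 h2 ?_
  · have := congrArg π hpR
    rwa [map_natCast, map_zero] at this
  · intro t ht
    choose s hsA hst using fun i => himg (t i) (ht i)
    obtain ⟨N, hN⟩ := hnil s hsA
    refine ⟨N, fun l hl => ?_⟩
    have h3 := congrArg π (hN l hl)
    rw [map_zero, map_list_prod, List.map_map] at h3
    rw [← h3]
    congr 1
    refine List.map_congr_left ?_
    intro i _
    exact (hst i).symm

end GP

end Pool.Agent.Lib.MP_eac726_al
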