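import Pool.Agent.Lib.MP_eac726_al.Defs

/-!
MP_eac726_al, module LA1: a subspace of codimension `s` in the `q` by `q` matrices contains a matrix
of rank `r` with `(q - r)^2` at most `s`.
-/

namespace EAC

open Matrix

theorem finrank_hom_le_aux {F K C S : Type} [Field F] [AddCommGroup K] [Module F K]
    [AddCommGroup C] [Module F C] [FiniteDimensional F K] [FiniteDimensional F C] [Fintype S]
    (Ψ : (K →ₗ[F] C) →ₗ[F] (S → F)) (h : ∀ φ, Ψ φ = 0 → φ = 0) :
    Module.finrank F K * Module.finrank F C ≤ Fintype.card S := by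
  have hinj : Function.Injective Ψ := by
    intro φ ψ hφψ
    have h1 : Ψ (φ - ψ) = 0 := by rw [map_sub, hφψ, sub_self]
    exact sub_eq_zero.1 (h _ h1)
  have hfr := LinearMap.finrank_le_finrank_of_injective hinj
  rwa [Module.finrank_pi, Module.finrank_linearMap] at hfr

theorem exists_rank {F : Type} [Field F] [Infinite F] (q : ℕ) {S : Type} [Fintype S]
    (f : S → (Matrix (Fin q) (Fin q) F →ₗ[F] F)) :
    ∃ B : Matrix (Fin q) (Fin q) F, (∀ s, f s B = 0) ∧ (q - B.rank) ^ 2 ≤ Fintype.card S := by
  classical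
  obtain ⟨B, hB, hmax⟩ : ∃ B : Matrix (Fin q) (Fin q) F, (∀ s, f s B = 0) ∧
      ∀ B' : Matrix (Fin q) (Fin q) F, (∀ s, f s B' = 0) → B'.rank ≤ B.rank := by
    obtain ⟨B, hB, hmin⟩ := (measure (fun B : Matrix (Fin q) (Fin q) F => q - B.rank)).wf.has_min
      {B | ∀ s, f s B = 0} ⟨0, fun s => map_zero _⟩
    refine ⟨B, hB, fun B' hB' => ?_⟩
    have h1 := hmin B' hB'
    have h1' : ¬ (q - B'.rank < q - B.rank) := h1
    have h2 : B'.rank ≤ q := by simpa using B'.rank_le_width
    have h3 : B.rank ≤ q := by simpa using B.rank_le_width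
    omega
  refine ⟨B, hB, ?_⟩
  set b : (Fin q → F) →ₗ[F] (Fin q → F) := B.mulVecLin with hb
  obtain ⟨K', hK⟩ := Submodule.exists_isCompl (LinearMap.ker b)
  obtain ⟨C, hC⟩ := Submodule.exists_isCompl (LinearMap.range b)
  -- projection onto the kernel
  obtain ⟨p, hp⟩ : ∃ p : (Fin q → F) →ₗ[F] (LinearMap.ker b),
      ∀ x : LinearMap.ker b, p (x : Fin q → F) = x :=
    (LinearMap.exists_leftInverse_of_injective (LinearMap.ker b).subtype
      (LinearMap.ker_eq_bot.2 (LinearMap.ker b).injective_subtype)).imp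
      fun g hg x => LinearMap.congr_fun hg x
  let Φ : ((LinearMap.ker b) →ₗ[F] C) →ₗ[F] Matrix (Fin q) (Fin q) F :=
    { toFun := fun φ => LinearMap.toMatrix' (C.subtype ∘ₗ φ ∘ₗ p)
      map_add' := fun φ ψ => by
        rw [LinearMap.add_comp, LinearMap.comp_add, map_add]
      map_smul' := fun c φ => by
        rw [LinearMap.smul_comp, LinearMap.comp_smul, map_smul]; rfl }
  let Ψ : ((LinearMap.ker b) →ₗ[F] C) →ₗ[F] (S → F) := LinearMap.pi fun s => (f s) ∘ₗ Φ
  have hfr : Module.finrank F (LinearMap.ker b) * Module.finrank F C ≤ Fintype.card S := by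
    refine finrank_hom_le_aux Ψ fun φ hφ => ?_
    have h1 : ∀ s, f s (Φ φ) = 0 := fun s => congrFun hφ s
    have h2 := hmax (B + Φ φ) (fun s => by rw [map_add, hB s, h1 s, add_zero])
    set g : (Fin q → F) →ₗ[F] (Fin q → F) := C.subtype ∘ₗ φ ∘ₗ p with hg
    have hΦ : (Φ φ).mulVecLin = g := by
      change (LinearMap.toMatrix' g).mulVecLin = g
      have := Matrix.toLin'_toMatrix' g
      rw [← Matrix.toLin'_apply']
      exact this
    have hsum : (B + Φ φ).mulVecLin = b + g := by
      rw [Matrix.mulVecLin_add, hΦ]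
    have hrk : Module.finrank F (LinearMap.range (b + g)) ≤ Module.finrank F (LinearMap.range b) := by
      have h3 : (B + Φ φ).rank = Module.finrank F (LinearMap.range (b + g)) := by
        rw [Matrix.rank, hsum]
      have h4 : B.rank = Module.finrank F (LinearMap.range b) := rfl
      rw [← h3, ← h4]; exact h2
    have hn1 := LinearMap.finrank_range_add_finrank_ker b
    have hn2 := LinearMap.finrank_range_add_finrank_ker (b + g)
    have hle : LinearMap.ker (b + g) ≤ LinearMap.ker b := by
      intro x hx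
      rw [LinearMap.mem_ker, LinearMap.add_apply] at hx
      have h5 : b x ∈ LinearMap.range b := LinearMap.mem_range_self b x
      have h6 : b x ∈ C := by
        have : b x = - g x := eq_neg_of_add_eq_zero_left hx
        rw [this]
        exact C.neg_mem (φ (p x)).2
      have h7 : b x ∈ LinearMap.range b ⊓ C := ⟨h5, h6⟩
      rw [hC.inf_eq_bot] at h7
      exact h7
    have heq : LinearMap.ker (b + g) = LinearMap.ker b :=
      Submodule.eq_of_le_of_finrank_le hle (by omega)
    ext x
    have hx : (x : Fin q → F) ∈ LinearMap.ker (b + g) := by rw [heq]; exact x.2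
    rw [LinearMap.mem_ker, LinearMap.add_apply] at hx
    have hx0 : b (x : Fin q → F) = 0 := x.2
    rw [hx0, zero_add, hg] at hx
    have hx' : ((φ (p (x : Fin q → F)) : C) : Fin q → F) = 0 := hx
    rw [hp x] at hx'
    rw [hx']
    rfl
  have hn1 := LinearMap.finrank_range_add_finrank_ker b
  have hn2 := Submodule.finrank_add_eq_of_isCompl hC
  have h4 : B.rank = Module.finrank F (LinearMap.range b) := rfl
  have hq : Module.finrank F (Fin q → F) = q := by simp
  rw [hq] at hn1 hn2
  have e1 : Module.finrank F (LinearMap.ker b) = q - B.rank := by omega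
  have e2 : Module.finrank F C = q - B.rank := by omega
  rw [e1, e2] at hfr
  rw [pow_two]
  exact hfr

end EAC
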