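import Pool.Agent.Lib.MP_eac726_al.Defs

/-!
MP_eac726_al, module LA2: a rank factorisation compatible with linear conditions.
-/

namespace EAC

open Matrix

theorem finrank_comap_le_aux {F V W : Type} [Field F] [AddCommGroup V] [Module F V]
    [AddCommGroup W] [Module F W] [FiniteDimensional F V] [FiniteDimensional F W]
    (p : V →ₗ[F] W) (U : Submodule F W) (L : Submodule F V) (h : ∀ x ∈ L, p x ∈ U) :
    Module.finrank F L ≤ Module.finrank F (LinearMap.ker p) + Module.finrank F U := by
  have h1 := LinearMap.finrank_range_add_finrank_ker (p.domRestrict L)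
  have h2 : LinearMap.range (p.domRestrict L) ≤ U := by
    rintro _ ⟨x, rfl⟩
    exact h x.1 x.2
  have h3 := Submodule.finrank_mono h2
  have h4 : Module.finrank F (LinearMap.ker (p.domRestrict L)) ≤
      Module.finrank F (LinearMap.ker p) := by
    let j : LinearMap.ker (p.domRestrict L) →ₗ[F] LinearMap.ker p :=
      { toFun := fun x => ⟨x.1.1, x.2⟩
        map_add' := fun _ _ => rfl
        map_smul' := fun _ _ => rfl }
    apply LinearMap.finrank_le_finrank_of_injective (f := j)
    intro x y hxy
    apply Subtype.ext
    apply Subtype.ext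
    exact congrArg (fun u : LinearMap.ker p => (u : V)) hxy
  omega

/-- if functionals `t j` are linearly independent, there are dual vectors -/
theorem exists_dual_aux {F V : Type} [Field F] [AddCommGroup V] [Module F V] {m : ℕ}
    (t : Fin m → Module.Dual F V) (ht : LinearIndependent F t) :
    ∃ a : Fin m → V, ∀ i j, t j (a i) = if i = j then 1 else 0 := by
  classical
  let ψ : V →ₗ[F] (Fin m → F) := LinearMap.pi t
  have hψ : LinearMap.range ψ = ⊤ := by
    by_contra hne
    obtain ⟨g, hg0, hg⟩ := Submodule.exists_le_ker_of_lt_top _ (lt_top_iff_ne_top.2 hne)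
    apply hg0
    have hz : ∑ j, g (Pi.single j 1) • t j = 0 := by
      ext x
      have h1 : g (ψ x) = 0 := hg (LinearMap.mem_range_self ψ x)
      have h2 : ψ x = ∑ j, (t j x) • (Pi.single j (1 : F) : Fin m → F) := by
        funext k
        simp [ψ, Finset.sum_apply, Pi.single_apply]
      rw [h2, map_sum] at h1
      simp only [map_smul, smul_eq_mul] at h1
      rw [LinearMap.sum_apply]
      simp only [LinearMap.smul_apply, smul_eq_mul, LinearMap.zero_apply]
      rw [← h1]
      exact Finset.sum_congr rfl fun j _ => mul_comm _ _
    have h3 := Fintype.linearIndependent_iff.1 ht _ hz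
    apply LinearMap.pi_ext'
    intro j
    apply LinearMap.ext_ring
    simpa using h3 j
  have hs : Function.Surjective ψ := LinearMap.range_eq_top.1 hψ
  choose a ha using fun i : Fin m => hs (Pi.single i 1)
  refine ⟨a, fun i j => ?_⟩
  have := congrFun (ha i) j
  have h4 : ψ (a i) j = t j (a i) := rfl
  rw [← h4, this, Pi.single_apply]
  simp [eq_comm]

theorem exists_indep_aux {F W N : Type} [Field F] [AddCommGroup N] [Module F N]
    [AddCommGroup W] [Module F W] [FiniteDimensional F W] (T : W →ₗ[F] N) :
    ∃ (m : ℕ) (c : Fin m → W), LinearIndependent F (fun j => T (c j)) ∧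
      m + Module.finrank F (LinearMap.ker T) = Module.finrank F W := by
  let bs := Module.finBasis F (LinearMap.range T)
  choose c hc using fun j => (bs j).2
  refine ⟨_, c, ?_, LinearMap.finrank_range_add_finrank_ker T⟩
  have h1 := bs.linearIndependent
  have h2 : (fun j => T (c j)) = fun j => ((bs j : LinearMap.range T) : N) := funext hc
  rw [h2]
  exact h1.map' (LinearMap.range T).subtype (Submodule.ker_subtype _)

theorem exists_dual_pair_aux {F V W : Type} [Field F] [AddCommGroup V] [Module F V]
    [AddCommGroup W] [Module F W] [FiniteDimensional F V] [FiniteDimensional F W]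
    (T : W →ₗ[F] Module.Dual F V) :
    ∃ (m : ℕ) (a : Fin m → V) (c : Fin m → W),
      (∀ i j, T (c j) (a i) = if i = j then 1 else 0) ∧
      m + Module.finrank F (LinearMap.ker T) = Module.finrank F W := by
  obtain ⟨m, c, hli, hm⟩ := exists_indep_aux T
  obtain ⟨a, ha⟩ := exists_dual_aux (fun j => T (c j)) hli
  exact ⟨m, a, c, ha, hm⟩

/-- vectors orthogonal to everything orthogonal to the `y s` are in their span -/
theorem mem_span_aux {F E S : Type} [Field F] [Fintype E] [DecidableEq E] [Fintype S]
    (y : S → E → F) (v : E → F) (h : ∀ a : E → F, (∀ s, y s ⬝ᵥ a = 0) → a ⬝ᵥ v = 0) :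
    v ∈ Submodule.span F (Set.range y) := by
  classical
  let δ : (E → F) →ₗ[F] Module.Dual F (E → F) :=
    { toFun := fun w =>
        { toFun := fun a => w ⬝ᵥ a
          map_add' := fun a a' => dotProduct_add _ _ _
          map_smul' := fun r a => by simp [dotProduct_smul] }
      map_add' := fun w w' => by
        ext a
        simp [add_dotProduct]
      map_smul' := fun r w => by
        ext a
        simp [smul_dotProduct] }
  have h1 : δ v ∈ Submodule.span F (Set.range fun s => δ (y s)) := by
    apply mem_span_of_iInf_ker_le_ker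
    intro a ha
    rw [Submodule.mem_iInf] at ha
    have h2 : ∀ s, y s ⬝ᵥ a = 0 := fun s => ha s
    have h3 := h a h2
    rw [dotProduct_comm] at h3
    exact h3
  have h4 : (Set.range fun s => δ (y s)) = δ '' Set.range y := by
    rw [← Set.range_comp]
    rfl
  rw [h4, ← Submodule.map_span] at h1
  obtain ⟨w, hw, hwv⟩ := h1
  have h5 : w = v := by
    funext e
    have h6 := LinearMap.congr_fun hwv (Pi.single e 1)
    have h7 : w ⬝ᵥ (Pi.single e 1) = v ⬝ᵥ (Pi.single e 1) := h6
    simpa using h7
  rw [← h5]
  exact hw

theorem exists_split {F : Type} [Field F] {E S S' : Type} [Fintype E] [DecidableEq E]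
    [Fintype S] [Fintype S'] (P : Matrix E E F) (y : S → E → F) (z : S' → E → F) :
    ∃ (q' : ℕ) (A : Matrix (Fin q') E F) (C : Matrix E (Fin q') F),
      (∀ s, A.mulVec (y s) = 0) ∧ (∀ s, Matrix.vecMul (z s) C = 0) ∧ A * P * C = 1 ∧
      P.rank ≤ q' + Fintype.card S + Fintype.card S' := by
  classical
  -- the conditions
  obtain ⟨D, hD⟩ : ∃ D : Submodule F (E → F), ∀ a : E → F, a ∈ D ↔ ∀ s, y s ⬝ᵥ a = 0 := by
    refine ⟨LinearMap.ker (Matrix.of y).mulVecLin, fun a => ?_⟩
    constructor
    · intro h s
      exact congrFun (show (Matrix.of y).mulVecLin a = 0 from h) s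
    · intro h
      change (Matrix.of y).mulVecLin a = 0
      funext s
      exact h s
  obtain ⟨D', hD', hcard⟩ : ∃ D' : Submodule F (E → F),
      (∀ a : E → F, a ∈ D' ↔ ∀ s, z s ⬝ᵥ a = 0) ∧
      Fintype.card E ≤ Fintype.card S' + Module.finrank F D' := by
    refine ⟨LinearMap.ker (Matrix.of z).mulVecLin, fun a => ?_, ?_⟩
    · constructor
      · intro h s
        exact congrFun (show (Matrix.of z).mulVecLin a = 0 from h) s
      · intro h
        change (Matrix.of z).mulVecLin a = 0
        funext s
        exact h s
    · have h2 := LinearMap.finrank_range_add_finrank_ker (Matrix.of z).mulVecLin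
      have h3 : Module.finrank F (LinearMap.range (Matrix.of z).mulVecLin) ≤ Fintype.card S' := by
        have := Submodule.finrank_le (LinearMap.range (Matrix.of z).mulVecLin)
        simpa using this
      rw [Module.finrank_pi] at h2
      omega
  let T : D' →ₗ[F] Module.Dual F D :=
    { toFun := fun c =>
        { toFun := fun a => (a : E → F) ⬝ᵥ (P.mulVec (c : E → F))
          map_add' := fun a a' => by
            simp [add_dotProduct]
          map_smul' := fun r a => by
            simp [smul_dotProduct] }
      map_add' := fun c c' => by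
        ext a
        simp [mulVec_add, dotProduct_add]
      map_smul' := fun r c => by
        ext a
        simp [mulVec_smul, dotProduct_smul] }
  have hT : ∀ (c : D') (a : D), T c a = (a : E → F) ⬝ᵥ (P.mulVec (c : E → F)) := fun c a => rfl
  obtain ⟨m, a, c, hac, hm⟩ := exists_dual_pair_aux T
  refine ⟨m, fun i e => (a i : E → F) e, fun e j => (c j : E → F) e, ?_, ?_, ?_, ?_⟩
  · intro s
    funext i
    have := (hD _).1 (a i).2 s
    rw [dotProduct_comm] at this
    exact this
  · intro s
    funext j
    exact (hD' _).1 (c j).2 s
  · ext i j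
    rw [Matrix.mul_assoc, Matrix.one_apply, ← hac i j]
    rfl
  · -- the dimension count
    have h4 := LinearMap.finrank_range_add_finrank_ker P.mulVecLin
    have h5 : P.rank = Module.finrank F (LinearMap.range P.mulVecLin) := rfl
    have h6 : Module.finrank F (LinearMap.ker T) ≤
        Module.finrank F (LinearMap.ker P.mulVecLin) + Fintype.card S := by
      have h7 : Module.finrank F ((LinearMap.ker T).map D'.subtype) =
          Module.finrank F (LinearMap.ker T) :=
        LinearEquiv.finrank_eq
          (Submodule.equivMapOfInjective D'.subtype D'.injective_subtype (LinearMap.ker T)).symm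
      have h8 := finrank_comap_le_aux P.mulVecLin (Submodule.span F (Set.range y))
        ((LinearMap.ker T).map D'.subtype) ?_
      · have h9 : Module.finrank F (Submodule.span F (Set.range y)) ≤ Fintype.card S :=
          finrank_range_le_card y
        rw [h7] at h8
        omega
      · rintro x ⟨c, hcT, rfl⟩
        apply mem_span_aux
        intro a ha
        have h11 : T c = 0 := hcT
        have h12 := LinearMap.congr_fun h11 ⟨a, (hD a).2 ha⟩
        exact h12
    rw [Module.finrank_pi] at h4
    omega

end EAC
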