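import Pool.Agent.Lib.MP_eac726_al.Defs

/-!
MP_eac726_al, module LA3: the rank of `1 ⊗ β`.
-/

namespace EAC

open Matrix

theorem rank_tens_ge {F : Type} [Field F] (n : ℕ) {q : ℕ} (β : Matrix (Fin q) (Fin q) F) :
    n * β.rank ≤ (tens n β).rank := by
  classical
  let G : (Fin n → LinearMap.range β.mulVecLin) →ₗ[F] (Fin n × Fin q → F) :=
    { toFun := fun w e => (w e.1 : Fin q → F) e.2
      map_add' := fun w w' => rfl
      map_smul' := fun c w => rfl }
  have hG : Function.Injective G := by
    intro w w' h
    funext i
    apply Subtype.ext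
    funext k
    exact congrFun h (i, k)
  have hr : LinearMap.range G ≤ LinearMap.range (tens n β).mulVecLin := by
    rintro _ ⟨w, rfl⟩
    choose u hu using fun i => (w i).2
    refine ⟨fun e => u e.1 e.2, ?_⟩
    funext e
    have h1 : (w e.1 : Fin q → F) e.2 = ∑ k, β e.2 k * u e.1 k := by
      rw [← hu e.1]
      rfl
    change ∑ e' : Fin n × Fin q, tens n β e e' * u e'.1 e'.2 = (w e.1 : Fin q → F) e.2
    rw [h1, Fintype.sum_prod_type, Finset.sum_eq_single e.1]
    · refine Finset.sum_congr rfl fun k _ => ?_
      simp [tens]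
    · intro i _ hi
      refine Finset.sum_eq_zero fun k _ => ?_
      simp [tens, hi.symm]
    · intro h
      exact absurd (Finset.mem_univ _) h
  have h1 : Module.finrank F (LinearMap.range G) =
      Module.finrank F (Fin n → LinearMap.range β.mulVecLin) :=
    LinearMap.finrank_range_of_inj hG
  have h2 : Module.finrank F (Fin n → LinearMap.range β.mulVecLin) = n * β.rank := by
    rw [Module.finrank_pi_fintype]
    simp [Matrix.rank]
  have h3 := Submodule.finrank_mono hr
  rw [h1, h2] at h3
  exact h3

end EAC
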