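import Pool.Agent.Lib.MP_eac726_al.CO3
import Pool.Agent.Lib.MP_eac726_al.CO2

namespace EAC

open Matrix

theorem NI_step {F : Type} [Field F] {n m : ℕ} {k : Type} [Field k] [Algebra k F]
    (Y : ℕ → (Fin m → R k n)) (τ : Fin m → R k n) (hτ : ∀ e, eps k n (τ e) = 0)
    (Lam : ℕ → ℕ) (h1 : ∀ l, 1 ≤ Lam l)
    (h2 : ∀ l, Y l ≠ τ → 2 * Lam (l + 1) + 3 ≤ Lam l)
    (T : Tr F n) (j l : ℕ) (hT : Good k Y T j l) (L : List (Fin m)) :
    ∀ i i', T.rep k (L.map τ).prod i i' ≠ 0 →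
      ff Y τ Lam l (T.w i) (T.sd i) + L.length ≤ ff Y τ Lam l (T.w i') (T.sd i') := by
  induction L with
  | nil =>
    intro i i' h
    rw [List.map_nil, List.prod_nil, map_one] at h
    by_cases hi : i = i'
    · rw [hi, List.length_nil, add_zero]
    · exact absurd (Matrix.one_apply_ne hi) h
  | cons e L ih =>
    intro i i' h
    rw [List.map_cons, List.prod_cons, map_mul, Matrix.mul_apply] at h
    obtain ⟨x, -, hx⟩ := Finset.exists_ne_zero_of_sum_ne_zero h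
    have hx1 := left_ne_zero_of_mul hx
    have hx2 := right_ne_zero_of_mul hx
    have h3 := ih x i' hx2
    have h4 := hT.order (τ e) (hτ e) i x hx1
    have h5 : anc Y τ l (T.w i) = anc Y τ l (T.w x) := by
      by_contra hcon
      exact hx1 (hT.kill τ e i x hcon)
    have h6 := ff_lt Y τ Lam h1 h2 l (T.w i) (T.sd i) (T.w x) (T.sd x) h4 h5
    rw [List.length_cons]
    omega

theorem tree_nil {F : Type} [Field F] {n m : ℕ} {k : Type} [Field k] [Algebra k F]
    (Y : ℕ → (Fin m → R k n)) (τ : Fin m → R k n) (G : ℕ)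
    (hG : ∀ l, ∃ h, l ≤ h ∧ h < l + G ∧ Y h = τ) (hτ : ∀ e, eps k n (τ e) = 0) :
    ∃ N : ℕ, ∀ (T : Tr F n) (j l : ℕ), Good k Y T j l → ∀ L : List (Fin m), L.length = N →
      T.rep k (L.map τ).prod = 0 := by
  obtain ⟨Lam, M, h1, h2, hM⟩ := exists_Lam Y τ G hG
  refine ⟨2 * M + 3, fun T j l hT L hL => ?_⟩
  refine Matrix.ext fun i i' => ?_
  by_contra hcon
  have h3 := NI_step Y τ hτ Lam h1 h2 T j l hT L i i' hcon
  have h4 := ff_le Y τ Lam h2 M hM l (T.w i') (T.sd i')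
  omega

end EAC
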