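import Pool.Agent.Lib.MP_eac726_al.TR
import Pool.Agent.Lib.MP_eac726_al.NI
import Pool.Agent.Lib.MP_eac726_al.DG
import Pool.Agent.Lib.MP_eac726_al.CO3

namespace EAC

open Matrix

section
variable {F : Type} [Field F] {n m : ℕ} {k : Type} [Field k] [Algebra k F]

/-- the ideal of all elements whose two-sided multiples have vanishing root blocks in all deep
trees -/
def rootIdeal (T : ℕ → Tr F n) : TwoSidedIdeal (R k n) :=
  TwoSidedIdeal.mk'
    {u | ∀ p q : R k n, ∃ K0 : ℕ, ∀ K ≥ K0, ∀ s s',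
      (T K).rep k (p * u * q) ((T K).pr s) ((T K).po s') = 0}
    (by intro p q; exact ⟨0, fun K _ s s' => by simp⟩)
    (by
      intro u v hu hv p q
      obtain ⟨K1, h1⟩ := hu p q
      obtain ⟨K2, h2⟩ := hv p q
      refine ⟨max K1 K2, fun K hK s s' => ?_⟩
      rw [mul_add, add_mul, map_add, Matrix.add_apply,
        h1 K (le_trans (le_max_left _ _) hK), h2 K (le_trans (le_max_right _ _) hK), add_zero])
    (by
      intro u hu p q
      obtain ⟨K1, h1⟩ := hu p q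
      refine ⟨K1, fun K hK s s' => ?_⟩
      rw [mul_neg, neg_mul, map_neg, Matrix.neg_apply, h1 K hK, neg_zero])
    (by
      intro v u hu p q
      obtain ⟨K1, h1⟩ := hu (p * v) q
      refine ⟨K1, fun K hK s s' => ?_⟩
      rw [← mul_assoc p v u]
      exact h1 K hK s s')
    (by
      intro u v hu p q
      obtain ⟨K1, h1⟩ := hu p (v * q)
      refine ⟨K1, fun K hK s s' => ?_⟩
      have e : p * (u * v) * q = p * u * (v * q) := by simp only [mul_assoc]
      rw [e]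
      exact h1 K hK s s')

theorem mem_rootIdeal (T : ℕ → Tr F n) (u : R k n) :
    u ∈ rootIdeal (k := k) T ↔ ∀ p q : R k n, ∃ K0 : ℕ, ∀ K ≥ K0, ∀ s s',
      (T K).rep k (p * u * q) ((T K).pr s) ((T K).po s') = 0 := by
  rw [rootIdeal, TwoSidedIdeal.mem_mk']
  rfl

theorem mem_of_rep_zero (T : ℕ → Tr F n) (u : R k n) (h : ∀ K, (T K).rep k u = 0) :
    u ∈ rootIdeal (k := k) T := by
  rw [mem_rootIdeal]
  intro p q
  exact ⟨0, fun K _ s s' => by rw [map_mul, map_mul, h K]; simp⟩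

theorem x_not_mem (Y : ℕ → (Fin m → R k n)) (T : ℕ → Tr F n)
    (hT : ∀ K, Good k Y (T K) K 0) : gx k n ∉ rootIdeal (k := k) T := by
  rw [mem_rootIdeal]
  intro h
  obtain ⟨K0, h⟩ := h 1 1
  have hq := (hT K0).q_pos
  have := h K0 le_rfl ⟨0, hq⟩ ⟨0, hq⟩
  rw [one_mul, mul_one, Tr.rep, gx, FreeAlgebra.lift_ι_apply, (hT K0).x_pr] at this
  simp at this

theorem rel_mem (Y : ℕ → (Fin m → R k n)) (T : ℕ → Tr F n)
    (hT : ∀ K, Good k Y (T K) K 0) : gx k n - gW k n ∈ rootIdeal (k := k) T := by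
  rw [mem_rootIdeal]
  intro p q
  obtain ⟨d, hd⟩ := deg_bound (F := F) (m := m) p
  refine ⟨d + 1, fun K hK s s' => ?_⟩
  rw [map_mul, map_mul, Matrix.mul_apply]
  refine Finset.sum_eq_zero fun i _ => ?_
  rw [Matrix.mul_apply, Finset.sum_eq_zero, zero_mul]
  intro i' _
  by_cases h : (T K).rep k p ((T K).pr s) i' = 0
  · rw [h, zero_mul]
  · have h1 := hd Y (T K) K 0 (hT K) _ _ h
    rw [(hT K).w_pr] at h1
    rw [(hT K).rel i' i (by simp at h1; omega), mul_zero]

end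

theorem exists_ring (p : ℕ) (hp : p.Prime) (m : ℕ) (hm : 1 ≤ m) :
    ∃ (B : Type) (_ : Ring B) (_ : (p : B) = 0) (A : TwoSidedIdeal B) (x : B) (_ : x ∈ A)
      (_ : x ≠ 0) (n : ℕ) (a c : Fin n → B) (b : B) (_ : x = ∑ i, a i * x * b * x * c i),
      ∀ t : Fin m → B, (∀ i, t i ∈ A) → ∃ N, ∀ l : List (Fin m), l.length = N →
        (l.map t).prod = 0 := by
  have : Fact p.Prime := ⟨hp⟩
  obtain ⟨Y, hY⟩ := exists_Y (Fin m → R (ZMod p) (1600 * m))
  have hT := fun K => exists_tree (F := AlgebraicClosure (ZMod p)) hm rfl Y K 0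
  choose T hT using hT
  set J := rootIdeal (k := ZMod p) T with hJ
  set π : R (ZMod p) (1600 * m) →+* J.ringCon.Quotient := J.ringCon.mk' with hπ
  have hsurj : Function.Surjective π := RingCon.mk'_surjective _
  have hker : ∀ u, π u = 0 ↔ u ∈ J := by
    intro u
    rw [← map_zero π]
    exact J.ringCon.eq
  have hpR : (p : R (ZMod p) (1600 * m)) = 0 := by
    rw [← map_natCast (algebraMap (ZMod p) (R (ZMod p) (1600 * m))) p, ZMod.natCast_self, map_zero]
  have hsub : ∀ u v, π u = π v ↔ u - v ∈ J := by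
    intro u v
    rw [← hker, map_sub, sub_eq_zero]
  refine ⟨J.ringCon.Quotient, inferInstance, ?_, ?_⟩
  · rw [← map_natCast π p, hpR, map_zero]
  refine ⟨TwoSidedIdeal.mk' {y | ∃ u, eps (ZMod p) (1600 * m) u = 0 ∧ π u = y}
    ⟨0, map_zero _, map_zero _⟩ ?_ ?_ ?_ ?_, π (gx _ _), ?_, ?_, 1600 * m,
    fun i => π (ga _ i), fun i => π (gc _ i), π (gb _ _), ?_, ?_⟩
  · rintro _ _ ⟨u, hu, rfl⟩ ⟨v, hv, rfl⟩
    exact ⟨u + v, by rw [map_add, hu, hv, add_zero], map_add _ _ _⟩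
  · rintro _ ⟨u, hu, rfl⟩
    exact ⟨-u, by rw [map_neg, hu, neg_zero], map_neg _ _⟩
  · rintro y _ ⟨u, hu, rfl⟩
    obtain ⟨v, rfl⟩ := hsurj y
    exact ⟨v * u, by rw [map_mul, hu, mul_zero], map_mul _ _ _⟩
  · rintro _ y ⟨u, hu, rfl⟩
    obtain ⟨v, rfl⟩ := hsurj y
    exact ⟨u * v, by rw [map_mul, hu, zero_mul], map_mul _ _ _⟩
  · rw [TwoSidedIdeal.mem_mk']
    exact ⟨gx _ _, by rw [eps, gx, FreeAlgebra.lift_ι_apply], rfl⟩
  · rw [Ne, hker]
    exact x_not_mem Y T hT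
  · have h := rel_mem Y T hT
    rw [← hJ, ← hsub] at h
    calc π (gx (ZMod p) (1600 * m)) = π (gW (ZMod p) (1600 * m)) := h
      _ = ∑ i, π (ga (ZMod p) i * gx (ZMod p) (1600 * m) * gb (ZMod p) (1600 * m) *
            gx (ZMod p) (1600 * m) * gc (ZMod p) i) := by rw [gW, map_sum]
      _ = _ := by
        refine Finset.sum_congr rfl fun i _ => ?_
        rw [map_mul, map_mul, map_mul, map_mul]
  · intro t ht
    have ht' : ∀ i, ∃ u, eps (ZMod p) (1600 * m) u = 0 ∧ π u = t i := by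
      intro i
      have := ht i
      rwa [TwoSidedIdeal.mem_mk'] at this
    choose u hu hut using ht'
    obtain ⟨G, hG⟩ := hY u
    obtain ⟨N, hN⟩ := tree_nil (F := AlgebraicClosure (ZMod p)) Y u G hG hu
    refine ⟨N, fun l hl => ?_⟩
    have h1 : (l.map t).prod = π (l.map u).prod := by
      rw [map_list_prod, List.map_map]
      congr 2
      funext i
      exact (hut i).symm
    rw [h1, hker]
    exact mem_of_rep_zero T _ fun K => hN (T K) K 0 (hT K) l hl

end EAC
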