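import Pool.Agent.Lib.MP_eac726_al.CO1
import Pool.Agent.Lib.MP_eac726_al.BL1
import Pool.Agent.Lib.MP_eac726_al.BL2

/-! `MP_eac726_al`, module SG1: the killing rule for the tree one level higher. -/

namespace EAC

open Matrix

section
variable {F : Type} [Field F] {n m : ℕ} {k : Type} [Field k] [Algebra k F]

theorem SG1_anc_cons_congr {Θ : Type} (Y : ℕ → Θ) (τ : Θ) (l : ℕ) (b : Bool)
    {w w' : List Bool} (h : anc Y τ (l + 1) w = anc Y τ (l + 1) w') :
    anc Y τ l (b :: w) = anc Y τ l (b :: w') := by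
  rw [anc, anc, h]

theorem SG1_anc_cons_none {Θ : Type} (Y : ℕ → Θ) (τ : Θ) (l : ℕ) (b b' : Bool)
    {w w' : List Bool} (h : anc Y τ (l + 1) w = none) (h' : anc Y τ (l + 1) w' = none) :
    anc Y τ l (b :: w) = anc Y τ l (b' :: w') := by
  rw [anc, anc, h, h']

theorem SG1_hit_of {Θ : Type} (Y : ℕ → Θ) (τ : Θ) (l : ℕ) {w : List Bool}
    (h : anc Y τ l w ≠ none) : hit Y τ l w := by
  by_contra h'
  exact h ((anc_eq_none Y τ l w).2 h')

theorem succ_kill (Y : ℕ → (Fin m → R k n)) (T : Tr F n) (j l : ℕ) (hT : Good k Y T j (l + 1))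
    (β : Matrix (Fin T.q) (Fin T.q) F) (q' : ℕ)
    (A : Matrix (Fin q') (Fin n × Fin T.q) F) (C : Matrix (Fin n × Fin T.q) (Fin q') F)
    (h1 : ∀ (τ : Fin m → R k n) (e : Fin m) (i i' : T.I),
        hit Y τ (l + 1) (T.w i) ∨ hit Y τ (l + 1) (T.w i') →
        T.lrRep k β (τ e) (Sum.inl i) (Sum.inr i') = 0)
    (h2 : ∀ (τ : Fin m → R k n) (e : Fin m) (j : T.I ⊕ T.I), hit Y τ l (lrw T j) →
        ∀ s, (A * T.So k β (τ e)) s j = 0)
    (h3 : ∀ (τ : Fin m → R k n) (e : Fin m) (j : T.I ⊕ T.I), hit Y τ l (lrw T j) →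
        ∀ s, (T.Sc k β (τ e) * C) j s = 0) :
    ∀ (τ : Fin m → R k n) (e : Fin m) (i i' : (T.succ β q' A C).I),
      anc Y τ l ((T.succ β q' A C).w i) ≠ anc Y τ l ((T.succ β q' A C).w i') →
      (T.succ β q' A C).rep k (τ e) i i' = 0 := by
  intro τ e i i' hne
  obtain ⟨b1, b2, b3⟩ := lrRep_blocks (k := k) T β (τ e)
  obtain ⟨c1, c2, c3, c4, c5, c6, c7⟩ := succ_blocks (k := k) T β q' A C (τ e)
  rcases i with i | (i | i)
  · rcases i' with i' | (i' | i')
    · exact absurd rfl hne
    · rw [c2]
      refine h2 τ e i' (SG1_hit_of Y τ l ?_) i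
      intro h
      apply hne
      rcases i' with i' | i' <;> exact h.symm
    · exact absurd rfl hne
  · rcases i' with i' | (i' | i')
    · exact c5 _ _
    · rw [c3]
      rcases i with i | i
      · rcases i' with i' | i'
        · have : T.lrRep k β (τ e) (Sum.inl i) (Sum.inl i') = T.rep k (τ e) i i' := by
            rw [← b1]; rfl
          rw [this]
          refine hT.kill τ e i i' ?_
          intro h
          exact hne (SG1_anc_cons_congr Y τ l false h)
        · refine h1 τ e i i' ?_
          by_contra h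
          rw [not_or] at h
          refine hne (SG1_anc_cons_none Y τ l false true ?_ ?_)
          · exact (anc_eq_none Y τ (l + 1) _).2 h.1
          · exact (anc_eq_none Y τ (l + 1) _).2 h.2
      · rcases i' with i' | i'
        · have : T.lrRep k β (τ e) (Sum.inr i) (Sum.inl i') =
              (T.lrRep k β (τ e)).toBlocks₂₁ i i' := rfl
          rw [this, b3]
          rfl
        · have : T.lrRep k β (τ e) (Sum.inr i) (Sum.inr i') = T.rep k (τ e) i i' := by
            rw [← b2]; rfl
          rw [this]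
          refine hT.kill τ e i i' ?_
          intro h
          exact hne (SG1_anc_cons_congr Y τ l true h)
    · rw [c4]
      refine h3 τ e i (SG1_hit_of Y τ l ?_) i'
      intro h
      apply hne
      rcases i with i | i <;> exact h
  · rcases i' with i' | (i' | i')
    · exact c5 _ _
    · exact c6 _ _
    · exact absurd rfl hne

end

end EAC
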