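import Pool.Agent.Lib.MP_eac726_al.BL2

/-! # SG2: the representation of the successor tree moves positions forward (helper35) -/

set_option autoImplicit false

namespace EAC

open Matrix

section
variable {F : Type} [Field F] {n m : ℕ} {k : Type} [Field k] [Algebra k F]

theorem succ_order (Y : ℕ → (Fin m → R k n)) (T : Tr F n) (j l : ℕ) (hT : Good k Y T j l)
    (β : Matrix (Fin T.q) (Fin T.q) F) (q' : ℕ)
    (A : Matrix (Fin q') (Fin n × Fin T.q) F) (C : Matrix (Fin n × Fin T.q) (Fin q') F) :
    ∀ u : R k n, eps k n u = 0 → ∀ i i', (T.succ β q' A C).rep k u i i' ≠ 0 →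
      PLt ((T.succ β q' A C).w i) ((T.succ β q' A C).sd i)
        ((T.succ β q' A C).w i') ((T.succ β q' A C).sd i') := by
  intro u hu i i' h
  obtain ⟨h1, -, h3, -, h5, h6, h7⟩ := succ_blocks T β q' A C u
  rcases i with i | (i | i)
  · rcases i' with i' | ((i' | i') | i')
    · exact absurd (by rw [h1 i i', hu]; simp) h
    · exact Or.inl (List.cons_ne_nil _ _)
    · exact Or.inl (List.cons_ne_nil _ _)
    · exact Or.inr rfl
  · rcases i' with i' | (i' | i')
    · exact absurd (h5 _ i') h
    · rw [h3 i i', lrRep_eq] at h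
      rcases i with i | i <;> rcases i' with i' | i'
      · exact Or.inr ⟨rfl, hT.order u hu i i' h⟩
      · exact Or.inl ⟨rfl, rfl⟩
      · exact absurd rfl h
      · exact Or.inr ⟨rfl, hT.order u hu i i' h⟩
    · rcases i with i | i <;> exact trivial
  · rcases i' with i' | (i' | i')
    · exact absurd (h5 _ i') h
    · exact absurd (h6 i i') h
    · exact absurd (by rw [h7 i i', hu]; simp) h

end

end EAC
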