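import Pool.Agent.Lib.MP_eac726_al.Defs

/-!
# `MP_eac726_al`, module SG3: the relation `x = W` in the successor tree

Besides `Good` one needs that the letter `x` reaches the right end of the root only from the left
end of the root (hypothesis `hx`); `base_xpo` and `succ_xpo` provide it for all trees.
-/

namespace EAC

open Matrix

section
variable {F : Type} [Field F] {n m : ℕ} {k : Type} [Field k] [Algebra k F]

/-- `x` reaches `po s` only from `pr s`: base tree. -/
theorem base_xpo (F : Type) [Field F] (n : ℕ) :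
    ∀ i s, (Tr.base F n).mx lx i ((Tr.base F n).po s) =
      if i = (Tr.base F n).pr s then 1 else 0 := by
  intro i s
  change Fin 1 at s
  have hs : s = (0 : Fin 1) := Subsingleton.elim _ _
  subst hs
  change Fin 1 ⊕ Fin 1 at i
  have key : (if (lx : Ltr n) = lx then (Matrix.fromBlocks 0 1 0 0 : Matrix (Fin 1 ⊕ Fin 1)
      (Fin 1 ⊕ Fin 1) F) else 0) i (Sum.inr 0) = if i = Sum.inl (0 : Fin 1) then 1 else 0 := by
    rcases i with i | i
    · have hi : i = (0 : Fin 1) := Subsingleton.elim _ _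
      subst hi
      simp
    · simp
  exact key

/-- block form of the letters of a successor tree -/
def blk3 {α β γ : Type} [Fintype α] [Fintype β] (P : Matrix γ α F) (X : Matrix γ β F)
    (L : Matrix α α F) (K : Matrix α β F) : Matrix (γ ⊕ (α ⊕ β)) (γ ⊕ (α ⊕ β)) F :=
  Matrix.fromBlocks 0 (Matrix.fromCols P X) 0 (Matrix.fromBlocks L K 0 0)

theorem blk3_mul {α β γ : Type} [Fintype α] [Fintype β] [Fintype γ]
    (P : Matrix γ α F) (X : Matrix γ β F) (L : Matrix α α F) (K : Matrix α β F)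
    (P' : Matrix γ α F) (X' : Matrix γ β F) (L' : Matrix α α F) (K' : Matrix α β F) :
    blk3 P X L K * blk3 P' X' L' K' = blk3 (P * L') (P * K') (L * L') (L * K') := by
  unfold blk3
  rw [Matrix.fromBlocks_multiply, Matrix.fromCols_mul_fromBlocks, Matrix.fromBlocks_multiply]
  simp

theorem succ_mx (T : Tr F n) (β : Matrix (Fin T.q) (Fin T.q) F) (q' : ℕ)
    (A : Matrix (Fin q') (Fin n × Fin T.q) F) (C : Matrix (Fin n × Fin T.q) (Fin q') F)
    (s : Ltr n) : (T.succ β q' A C).mx s =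
      blk3 (A * T.opn s) (if s = lx then 1 else 0) (T.lr β s) (T.cls s * C) := rfl

/-- `x` reaches `po s` only from `pr s`: successor tree. -/
theorem succ_xpo (T : Tr F n) (β : Matrix (Fin T.q) (Fin T.q) F) (q' : ℕ)
    (A : Matrix (Fin q') (Fin n × Fin T.q) F) (C : Matrix (Fin n × Fin T.q) (Fin q') F) :
    ∀ i s, (T.succ β q' A C).mx lx i ((T.succ β q' A C).po s) =
      if i = (T.succ β q' A C).pr s then 1 else 0 := by
  intro i s
  change Fin q' at s
  change Fin q' ⊕ ((T.I ⊕ T.I) ⊕ Fin q') at i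
  have key : (blk3 (A * T.opn lx) 1 (T.lr β lx) (T.cls lx * C)) i (Sum.inr (Sum.inr s)) =
      if i = Sum.inl s then 1 else 0 := by
    have h0 : T.cls (lx : Ltr n) = 0 := rfl
    rcases i with i | (i | i)
    · by_cases h : i = s
      · subst h
        simp [blk3]
      · simp [blk3, h]
    · simp [blk3, h0]
    · simp [blk3]
  exact key

theorem rep_iota (T : Tr F n) (t : Ltr n) : T.rep k (FreeAlgebra.ι k t) = T.mx t := by
  simp [Tr.rep]

/-- no letter reaches `pr s` -/
theorem mx_pr_col (Y : ℕ → (Fin m → R k n)) (T : Tr F n) (j l : ℕ) (hT : Good k Y T j l)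
    (t : Ltr n) (i : T.I) (s : Fin T.q) : T.mx t i (T.pr s) = 0 := by
  by_contra hne
  have hx : T.rep k (FreeAlgebra.ι k lx) (T.pr s) (T.po s) ≠ 0 := by
    rw [rep_iota, hT.x_pr]
    simp
  have h1 := hT.order _ (by simp [eps]) _ _ hx
  have ht : T.rep k (FreeAlgebra.ι k t) i (T.pr s) ≠ 0 := by
    rw [rep_iota]
    exact hne
  have h2 := hT.order _ (by simp [eps]) _ _ ht
  rw [hT.w_pr, hT.w_po] at h1
  rw [hT.w_pr] at h2
  have hsd : T.sd (T.pr s) = false := by
    cases h : T.sd (T.pr s)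
    · rfl
    · rw [h] at h1
      exact absurd h1 (by simp [PLt])
  rw [hsd] at h2
  generalize T.w i = w at h2
  generalize T.sd i = b at h2
  cases w <;> cases b <;> simp [PLt] at h2

/-- the middle connection followed by `x` -/
theorem mid_x (Y : ℕ → (Fin m → R k n)) (T : Tr F n) (j l : ℕ) (hT : Good k Y T j l)
    (β : Matrix (Fin T.q) (Fin T.q) F) (i i' : T.I) :
    (T.mid β * T.mx lx) i i' = ∑ s, ∑ s', if i = T.po s ∧ i' = T.po s' then β s s' else 0 := by
  rw [Matrix.mul_apply]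
  simp only [Tr.mid, Finset.sum_mul]
  rw [Finset.sum_comm]
  refine Finset.sum_congr rfl fun s _ => ?_
  rw [Finset.sum_comm]
  refine Finset.sum_congr rfl fun s' _ => ?_
  rw [Finset.sum_eq_single (T.pr s')]
  · rw [hT.x_pr]
    by_cases h1 : i = T.po s <;> by_cases h2 : i' = T.po s' <;> simp [h1, h2]
  · intro b _ hb
    simp [hb]
  · intro h
    exact absurd (Finset.mem_univ _) h

theorem mid_x_mx (Y : ℕ → (Fin m → R k n)) (T : Tr F n) (j l : ℕ) (hT : Good k Y T j l)
    (β : Matrix (Fin T.q) (Fin T.q) F) (t : Ltr n) : T.mid β * T.mx lx * T.mx t = 0 := by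
  ext i i'
  rw [Matrix.mul_apply, Matrix.zero_apply]
  refine Finset.sum_eq_zero fun a _ => ?_
  rw [mid_x Y T j l hT, Finset.sum_mul]
  refine Finset.sum_eq_zero fun s _ => ?_
  rw [Finset.sum_mul]
  refine Finset.sum_eq_zero fun s' _ => ?_
  by_cases h : a = T.po s'
  · rw [h, hT.po_row, mul_zero]
  · simp [h]

theorem mx_x_mid (Y : ℕ → (Fin m → R k n)) (T : Tr F n) (j l : ℕ) (hT : Good k Y T j l)
    (hx : ∀ i s, T.mx lx i (T.po s) = if i = T.pr s then 1 else 0)
    (β : Matrix (Fin T.q) (Fin T.q) F) (t : Ltr n) : T.mx t * T.mx lx * T.mid β = 0 := by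
  ext i i'
  rw [Matrix.mul_apply, Matrix.zero_apply]
  refine Finset.sum_eq_zero fun a _ => ?_
  by_cases h : ∃ s, a = T.po s
  · obtain ⟨s, rfl⟩ := h
    have h0 : (T.mx t * T.mx lx) i (T.po s) = 0 := by
      rw [Matrix.mul_apply]
      refine Finset.sum_eq_zero fun b _ => ?_
      rw [hx]
      by_cases hb : b = T.pr s
      · rw [hb, mx_pr_col Y T j l hT, zero_mul]
      · simp [hb]
    rw [h0, zero_mul]
  · have h0 : T.mid β a i' = 0 := by
      simp only [Tr.mid]
      refine Finset.sum_eq_zero fun s _ => Finset.sum_eq_zero fun s' _ => ?_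
      rw [if_neg]
      rintro ⟨h1, -⟩
      exact h ⟨s, h1⟩
    rw [h0, mul_zero]

theorem mx_x_po (Y : ℕ → (Fin m → R k n)) (T : Tr F n) (j l : ℕ) (hT : Good k Y T j l)
    (hx : ∀ i s, T.mx lx i (T.po s) = if i = T.pr s then 1 else 0)
    (N : Matrix T.I T.I F) (t : Ltr n) (i : T.I) (s : Fin T.q) :
    (N * T.mx t * T.mx lx) i (T.po s) = 0 := by
  rw [Matrix.mul_apply]
  refine Finset.sum_eq_zero fun b _ => ?_
  rw [hx]
  by_cases hb : b = T.pr s
  · have h0 : (N * T.mx t) i b = 0 := by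
      rw [Matrix.mul_apply]
      refine Finset.sum_eq_zero fun a _ => ?_
      rw [hb, mx_pr_col Y T j l hT, mul_zero]
    rw [h0, zero_mul]
  · simp [hb]

theorem lr_of_ne (T : Tr F n) (β : Matrix (Fin T.q) (Fin T.q) F) {s : Ltr n} (h : s ≠ lb) :
    T.lr β s = Matrix.fromBlocks (T.mx s) 0 0 (T.mx s) := by
  simp [Tr.lr, h]

theorem lr_lb (T : Tr F n) (β : Matrix (Fin T.q) (Fin T.q) F) :
    T.lr β (lb : Ltr n) = Matrix.fromBlocks (T.mx lb) (T.mid β) 0 (T.mx lb) := by
  simp [Tr.lr]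

/-- the word `a x b x` on two copies -/
theorem lr_four (Y : ℕ → (Fin m → R k n)) (T : Tr F n) (j l : ℕ) (hT : Good k Y T j l)
    (hx : ∀ i s, T.mx lx i (T.po s) = if i = T.pr s then 1 else 0)
    (β : Matrix (Fin T.q) (Fin T.q) F) (t : Fin n) :
    T.lr β (la t) * T.lr β lx * T.lr β lb * T.lr β lx =
      Matrix.fromBlocks (T.mx (la t) * T.mx lx * T.mx lb * T.mx lx) 0 0
        (T.mx (la t) * T.mx lx * T.mx lb * T.mx lx) := by
  rw [lr_of_ne T β (s := la t) (by simp), lr_of_ne T β (s := lx) (by simp), lr_lb,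
    Matrix.fromBlocks_multiply, Matrix.fromBlocks_multiply, Matrix.fromBlocks_multiply]
  have h := mx_x_mid Y T j l hT hx β (la t)
  simp [h]

theorem cls_zero (Y : ℕ → (Fin m → R k n)) (T : Tr F n) (j l : ℕ) (hT : Good k Y T j l)
    (hx : ∀ i s, T.mx lx i (T.po s) = if i = T.pr s then 1 else 0)
    (β : Matrix (Fin T.q) (Fin T.q) F) (t : Fin n) :
    T.lr β (la t) * T.lr β lx * T.lr β lb * T.lr β lx * T.cls (lc t) = 0 := by
  rw [lr_four Y T j l hT hx]
  ext a e
  rw [Matrix.mul_apply, Matrix.zero_apply]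
  refine Finset.sum_eq_zero fun b _ => ?_
  have hc : T.cls (lc t) b e = if e.1 = t ∧ b = Sum.inr (T.po e.2) then 1 else 0 := rfl
  rw [hc]
  by_cases hb : b = Sum.inr (T.po e.2)
  · rw [hb]
    rcases a with a | a
    · simp
    · rw [Matrix.fromBlocks_apply₂₂, mx_x_po Y T j l hT hx, zero_mul]
  · simp [hb]

theorem lr_five (Y : ℕ → (Fin m → R k n)) (T : Tr F n) (j l : ℕ) (hT : Good k Y T j l)
    (hx : ∀ i s, T.mx lx i (T.po s) = if i = T.pr s then 1 else 0)
    (β : Matrix (Fin T.q) (Fin T.q) F) (t : Fin n) :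
    T.lr β (la t) * T.lr β lx * T.lr β lb * T.lr β lx * T.lr β (lc t) =
      Matrix.fromBlocks (T.mx (la t) * T.mx lx * T.mx lb * T.mx lx * T.mx (lc t)) 0 0
        (T.mx (la t) * T.mx lx * T.mx lb * T.mx lx * T.mx (lc t)) := by
  rw [lr_four Y T j l hT hx, lr_of_ne T β (s := lc t) (by simp), Matrix.fromBlocks_multiply]
  simp

/-- opening followed by `x` -/
def mOpx (T : Tr F n) (t : Fin n) : Matrix (Fin n × Fin T.q) (T.I ⊕ T.I) F :=
  fun e a => if e.1 = t ∧ a = Sum.inl (T.po e.2) then 1 else 0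

/-- opening followed by `x b x` -/
def mOpb (T : Tr F n) (β : Matrix (Fin T.q) (Fin T.q) F) (t : Fin n) :
    Matrix (Fin n × Fin T.q) (T.I ⊕ T.I) F :=
  fun e a => if e.1 = t then ∑ s', (if a = Sum.inr (T.po s') then β e.2 s' else 0) else 0

/-- the `t`-block of `1 ⊗ β` -/
def mTen {q : ℕ} (β : Matrix (Fin q) (Fin q) F) (t : Fin n) :
    Matrix (Fin n × Fin q) (Fin n × Fin q) F :=
  fun e e' => if e.1 = t ∧ e'.1 = t then β e.2 e'.2 else 0

theorem mOpx_apply (T : Tr F n) (t : Fin n) (e : Fin n × Fin T.q) (a : T.I ⊕ T.I) :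
    mOpx T t e a = if e.1 = t ∧ a = Sum.inl (T.po e.2) then 1 else 0 := rfl

theorem mOpb_apply (T : Tr F n) (β : Matrix (Fin T.q) (Fin T.q) F) (t : Fin n)
    (e : Fin n × Fin T.q) (a : T.I ⊕ T.I) : mOpb T β t e a =
      if e.1 = t then ∑ s', (if a = Sum.inr (T.po s') then β e.2 s' else 0) else 0 := rfl

theorem mTen_apply {q : ℕ} (β : Matrix (Fin q) (Fin q) F) (t : Fin n) (e e' : Fin n × Fin q) :
    mTen β t e e' = if e.1 = t ∧ e'.1 = t then β e.2 e'.2 else 0 := rfl

theorem op_x (Y : ℕ → (Fin m → R k n)) (T : Tr F n) (j l : ℕ) (hT : Good k Y T j l)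
    (β : Matrix (Fin T.q) (Fin T.q) F) (t : Fin n) :
    T.opn (la t) * T.lr β lx = mOpx T t := by
  rw [lr_of_ne T β (s := lx) (by simp)]
  ext e a
  rw [mOpx_apply, Matrix.mul_apply, Finset.sum_eq_single (Sum.inl (T.pr e.2))]
  · have ho : T.opn (la t) e (Sum.inl (T.pr e.2)) =
        if e.1 = t ∧ (Sum.inl (T.pr e.2) : T.I ⊕ T.I) = Sum.inl (T.pr e.2) then 1 else 0 := rfl
    rw [ho]
    rcases a with a | a
    · rw [Matrix.fromBlocks_apply₁₁, hT.x_pr]
      by_cases h1 : e.1 = t <;> by_cases h2 : a = T.po e.2 <;> simp [h1, h2]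
    · simp
  · intro b _ hb
    have ho : T.opn (la t) e b = if e.1 = t ∧ b = Sum.inl (T.pr e.2) then 1 else 0 := rfl
    rw [ho]
    simp [hb]
  · intro h
    exact absurd (Finset.mem_univ _) h

theorem op_xbx (Y : ℕ → (Fin m → R k n)) (T : Tr F n) (j l : ℕ) (hT : Good k Y T j l)
    (β : Matrix (Fin T.q) (Fin T.q) F) (t : Fin n) :
    T.opn (la t) * T.lr β lx * T.lr β lb * T.lr β lx = mOpb T β t := by
  rw [op_x Y T j l hT, Matrix.mul_assoc, lr_lb, lr_of_ne T β (s := lx) (by simp),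
    Matrix.fromBlocks_multiply]
  ext e a
  rw [mOpb_apply, Matrix.mul_apply, Finset.sum_eq_single (Sum.inl (T.po e.2)), mOpx_apply]
  · rcases a with a | a
    · have h0 : (T.mx lb * T.mx lx) (T.po e.2) a = 0 := by
        rw [Matrix.mul_apply]
        refine Finset.sum_eq_zero fun b _ => ?_
        rw [hT.po_row, zero_mul]
      simp [h0]
    · have h1 := mid_x Y T j l hT β (T.po e.2) a
      have h2 : (∑ s, ∑ s', if T.po e.2 = T.po s ∧ a = T.po s' then β s s' else 0) =
          ∑ s', if a = T.po s' then β e.2 s' else 0 := by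
        rw [Finset.sum_eq_single e.2]
        · simp
        · intro b _ hb
          refine Finset.sum_eq_zero fun s' _ => ?_
          rw [if_neg]
          rintro ⟨h, -⟩
          exact hb (hT.po_inj h).symm
        · intro h
          exact absurd (Finset.mem_univ _) h
      rw [h2] at h1
      by_cases h : e.1 = t
      · simp [h, h1]
      · simp [h]
  · intro b _ hb
    rw [mOpx_apply]
    simp [hb]
  · intro h
    exact absurd (Finset.mem_univ _) h

theorem op_five (Y : ℕ → (Fin m → R k n)) (T : Tr F n) (j l : ℕ) (hT : Good k Y T j l)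
    (β : Matrix (Fin T.q) (Fin T.q) F) (t : Fin n) :
    T.opn (la t) * T.lr β lx * T.lr β lb * T.lr β lx * T.lr β (lc t) = 0 := by
  rw [op_xbx Y T j l hT, lr_of_ne T β (s := lc t) (by simp)]
  ext e a
  rw [Matrix.mul_apply, Matrix.zero_apply]
  refine Finset.sum_eq_zero fun b _ => ?_
  rw [mOpb_apply]
  by_cases h : e.1 = t
  · simp only [if_pos h, Finset.sum_mul]
    refine Finset.sum_eq_zero fun s' _ => ?_
    by_cases hb : b = Sum.inr (T.po s')
    · rw [hb]
      rcases a with a | a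
      · simp
      · simp [hT.po_row]
    · simp [hb]
  · simp [h]

theorem op_cls (Y : ℕ → (Fin m → R k n)) (T : Tr F n) (j l : ℕ) (hT : Good k Y T j l)
    (β : Matrix (Fin T.q) (Fin T.q) F) (t : Fin n) :
    T.opn (la t) * T.lr β lx * T.lr β lb * T.lr β lx * T.cls (lc t) = mTen β t := by
  rw [op_xbx Y T j l hT]
  ext e e'
  rw [mTen_apply, Matrix.mul_apply, Finset.sum_eq_single (Sum.inr (T.po e'.2)), mOpb_apply]
  · have hc : T.cls (lc t) (Sum.inr (T.po e'.2)) e' =
        if e'.1 = t ∧ (Sum.inr (T.po e'.2) : T.I ⊕ T.I) = Sum.inr (T.po e'.2) then 1 else 0 := rfl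
    rw [hc]
    have h2 : (∑ s', if (Sum.inr (T.po e'.2) : T.I ⊕ T.I) = Sum.inr (T.po s') then β e.2 s'
        else 0) = β e.2 e'.2 := by
      rw [Finset.sum_eq_single e'.2]
      · simp
      · intro b _ hb
        rw [if_neg]
        intro h
        exact hb (hT.po_inj (Sum.inr_injective h)).symm
      · intro h
        exact absurd (Finset.mem_univ _) h
    rw [h2]
    by_cases h1 : e.1 = t <;> by_cases h3 : e'.1 = t <;> simp [h1, h3]
  · intro b _ hb
    have hc : T.cls (lc t) b e' = if e'.1 = t ∧ b = Sum.inr (T.po e'.2) then 1 else 0 := rfl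
    rw [hc]
    simp [hb]
  · intro h
    exact absurd (Finset.mem_univ _) h

theorem sum_tens {q : ℕ} (β : Matrix (Fin q) (Fin q) F) :
    (∑ t : Fin n, mTen β t) = tens n β := by
  ext e e'
  rw [Matrix.sum_apply]
  simp only [mTen_apply]
  show _ = if e.1 = e'.1 then β e.2 e'.2 else 0
  by_cases h : e.1 = e'.1
  · rw [if_pos h, Finset.sum_eq_single e.1]
    · simp [h]
    · intro b _ hb
      rw [if_neg]
      rintro ⟨h1, -⟩
      exact hb h1.symm
    · intro h
      exact absurd (Finset.mem_univ _) h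
  · rw [if_neg h]
    refine Finset.sum_eq_zero fun b _ => ?_
    rw [if_neg]
    rintro ⟨h1, h2⟩
    exact h (h1.trans h2.symm)

theorem rep_gW (T : Tr F n) : T.rep k (gW k n) =
    ∑ t : Fin n, T.mx (la t) * T.mx lx * T.mx lb * T.mx lx * T.mx (lc t) := by
  simp only [gW, map_sum, map_mul, rep_iota]

theorem sum_blk3 {ι α β γ : Type} [Fintype α] [Fintype β] (u : Finset ι)
    (P : ι → Matrix γ α F) (X : ι → Matrix γ β F) (L : ι → Matrix α α F) (K : ι → Matrix α β F) :
    ∑ t ∈ u, blk3 (P t) (X t) (L t) (K t) =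
      blk3 (∑ t ∈ u, P t) (∑ t ∈ u, X t) (∑ t ∈ u, L t) (∑ t ∈ u, K t) := by
  ext a b
  rw [Matrix.sum_apply]
  rcases a with a | a | a <;> rcases b with b | b | b <;> simp [blk3, Matrix.sum_apply]

/-- the relation `x = W` in the successor tree (with the extra hypothesis `hx`) -/
theorem succ_rel (Y : ℕ → (Fin m → R k n)) (T : Tr F n) (j l : ℕ) (hT : Good k Y T j l)
    (hx : ∀ i s, T.mx lx i (T.po s) = if i = T.pr s then 1 else 0)
    (β : Matrix (Fin T.q) (Fin T.q) F) (q' : ℕ)
    (A : Matrix (Fin q') (Fin n × Fin T.q) F) (C : Matrix (Fin n × Fin T.q) (Fin q') F)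
    (h4 : A * tens n β * C = 1) :
    ∀ i i', ((T.succ β q' A C).w i).length < j + 1 →
      (T.succ β q' A C).rep k (gx k n - gW k n) i i' = 0 := by
  have e1 : (T.succ β q' A C).rep k (gW k n) =
      blk3 (∑ t : Fin n, A * T.opn (la t) * T.lr β lx * T.lr β lb * T.lr β lx * T.lr β (lc t))
        (∑ t : Fin n, A * T.opn (la t) * T.lr β lx * T.lr β lb * T.lr β lx * (T.cls (lc t) * C))
        (∑ t : Fin n, T.lr β (la t) * T.lr β lx * T.lr β lb * T.lr β lx * T.lr β (lc t))
        (∑ t : Fin n, T.lr β (la t) * T.lr β lx * T.lr β lb * T.lr β lx * (T.cls (lc t) * C)) := by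
    rw [rep_gW, ← sum_blk3]
    refine Finset.sum_congr rfl fun t _ => ?_
    simp only [succ_mx]
    exact (by
      rw [blk3_mul, blk3_mul, blk3_mul, blk3_mul] :
      blk3 (A * T.opn (la t)) (if (la t : Ltr n) = lx then 1 else 0) (T.lr β (la t))
          (T.cls (la t) * C) *
        blk3 (A * T.opn lx) (if (lx : Ltr n) = lx then 1 else 0) (T.lr β lx) (T.cls lx * C) *
        blk3 (A * T.opn lb) (if (lb : Ltr n) = lx then 1 else 0) (T.lr β lb) (T.cls lb * C) *
        blk3 (A * T.opn lx) (if (lx : Ltr n) = lx then 1 else 0) (T.lr β lx) (T.cls lx * C) *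
        blk3 (A * T.opn (lc t)) (if (lc t : Ltr n) = lx then 1 else 0) (T.lr β (lc t))
          (T.cls (lc t) * C) = _)
  have e2 : (∑ t : Fin n, A * T.opn (la t) * T.lr β lx * T.lr β lb * T.lr β lx * T.lr β (lc t))
      = 0 := by
    refine Finset.sum_eq_zero fun t _ => ?_
    have h := op_five Y T j l hT β t
    simp only [Matrix.mul_assoc] at h ⊢
    rw [h, Matrix.mul_zero]
  have e3 : (∑ t : Fin n, A * T.opn (la t) * T.lr β lx * T.lr β lb * T.lr β lx *
      (T.cls (lc t) * C)) = 1 := by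
    rw [← h4, ← sum_tens, Matrix.mul_sum, Matrix.sum_mul]
    refine Finset.sum_congr rfl fun t _ => ?_
    rw [← op_cls Y T j l hT β t]
    simp only [Matrix.mul_assoc]
  have e4 : (∑ t : Fin n, T.lr β (la t) * T.lr β lx * T.lr β lb * T.lr β lx * (T.cls (lc t) * C))
      = 0 := by
    refine Finset.sum_eq_zero fun t _ => ?_
    rw [← Matrix.mul_assoc, cls_zero Y T j l hT hx, Matrix.zero_mul]
  have e5 : (∑ t : Fin n, T.lr β (la t) * T.lr β lx * T.lr β lb * T.lr β lx * T.lr β (lc t)) =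
      Matrix.fromBlocks (T.rep k (gW k n)) 0 0 (T.rep k (gW k n)) := by
    rw [rep_gW]
    simp only [lr_five Y T j l hT hx]
    ext a b
    rw [Matrix.sum_apply]
    rcases a with a | a <;> rcases b with b | b <;> simp [Matrix.sum_apply]
  have e6 : (T.succ β q' A C).rep k (gx k n) =
      blk3 (0 : Matrix (Fin q') (T.I ⊕ T.I) F) 1 (T.lr β lx)
        (0 : Matrix (T.I ⊕ T.I) (Fin q') F) := by
    rw [rep_iota, succ_mx]
    have h1 : T.opn (lx : Ltr n) = 0 := rfl
    have h2 : T.cls (lx : Ltr n) = 0 := rfl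
    rw [h1, h2, Matrix.mul_zero, Matrix.zero_mul, if_pos rfl]
  have e7 : T.lr β (lx : Ltr n) =
      Matrix.fromBlocks (T.rep k (gx k n)) 0 0 (T.rep k (gx k n)) := by
    rw [lr_of_ne T β (by simp), rep_iota]
  rw [e2, e3, e4, e5] at e1
  rw [e7] at e6
  intro i i' hi
  rw [map_sub, Matrix.sub_apply, e1, e6]
  change Fin q' ⊕ ((T.I ⊕ T.I) ⊕ Fin q') at i
  change Fin q' ⊕ ((T.I ⊕ T.I) ⊕ Fin q') at i'
  have key : ∀ a b : T.I, (T.w a).length < j →
      T.rep k (gx k n) a b - T.rep k (gW k n) a b = 0 := by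
    intro a b hab
    have h := hT.rel a b hab
    rwa [map_sub, Matrix.sub_apply] at h
  have main : (blk3 (0 : Matrix (Fin q') (T.I ⊕ T.I) F) 1
        (Matrix.fromBlocks (T.rep k (gx k n)) 0 0 (T.rep k (gx k n)))
        (0 : Matrix (T.I ⊕ T.I) (Fin q') F)) i i' -
      (blk3 (0 : Matrix (Fin q') (T.I ⊕ T.I) F) 1
        (Matrix.fromBlocks (T.rep k (gW k n)) 0 0 (T.rep k (gW k n)))
        (0 : Matrix (T.I ⊕ T.I) (Fin q') F)) i i' = 0 := by
    rcases i with i | ((i | i) | i)
    · rcases i' with i' | ((i' | i') | i') <;> simp [blk3]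
    · have hi' : (T.w i).length < j := by
        have h : (false :: T.w i).length < j + 1 := hi
        simpa using h
      rcases i' with i' | ((i' | i') | i')
      · simp [blk3]
      · simpa [blk3] using key i i' hi'
      · simp [blk3]
      · simp [blk3]
    · have hi' : (T.w i).length < j := by
        have h : (true :: T.w i).length < j + 1 := hi
        simpa using h
      rcases i' with i' | ((i' | i') | i')
      · simp [blk3]
      · simp [blk3]
      · simpa [blk3] using key i i' hi'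
      · simp [blk3]
    · rcases i' with i' | ((i' | i') | i') <;> simp [blk3]
  exact main

end

end EAC
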