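import Pool.Agent.Lib.MP_eac726_al.Defs

/-!
# `MP_eac726_al`, module SG4: the numeric and combinatorial fields of the successor tree
-/

set_option autoImplicit false

namespace EAC

open Matrix

section
variable {F : Type} [Field F] {n m : ℕ} {k : Type} [Field k] [Algebra k F]

theorem opn_inl (T : Tr F n) (b : Bool) : T.opn (Sum.inl b) = 0 := rfl

theorem opn_c (T : Tr F n) (i : Fin n) : T.opn (Sum.inr (true, i)) = 0 := rfl

theorem opn_a (T : Tr F n) (i : Fin n) (e : Fin n × Fin T.q) (j : T.I ⊕ T.I) :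
    T.opn (Sum.inr (false, i)) e j = if e.1 = i ∧ j = Sum.inl (T.pr e.2) then 1 else 0 := rfl

theorem opn_ne_zero (T : Tr F n) (t : Ltr n) (e : Fin n × Fin T.q) (j : T.I ⊕ T.I)
    (h : T.opn t e j ≠ 0) : ∃ s, j = Sum.inl (T.pr s) := by
  rcases t with (b | ⟨b, i⟩)
  · rw [opn_inl] at h
    exact absurd (Matrix.zero_apply e j) h
  · cases b
    · rw [opn_a] at h
      by_contra hn
      push Not at hn
      apply h
      rw [if_neg]
      rintro ⟨_, h2⟩
      exact hn _ h2
    · rw [opn_c] at h
      exact absurd (Matrix.zero_apply e j) h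

theorem mid_ne_zero (T : Tr F n) (β : Matrix (Fin T.q) (Fin T.q) F) (i i' : T.I)
    (h : T.mid β i i' ≠ 0) : ∃ s, i' = T.pr s := by
  by_contra hn
  push Not at hn
  apply h
  unfold Tr.mid
  apply Finset.sum_eq_zero
  intro s _
  apply Finset.sum_eq_zero
  intro s' _
  rw [if_neg]
  rintro ⟨_, h2⟩
  exact hn _ h2

theorem succ_rest (Y : ℕ → (Fin m → R k n)) (T : Tr F n) (j l : ℕ) (hT : Good k Y T j l)
    (hn : 1600 ≤ n) (β : Matrix (Fin T.q) (Fin T.q) F) (q' : ℕ)
    (A : Matrix (Fin q') (Fin n × Fin T.q) F) (C : Matrix (Fin n × Fin T.q) (Fin q') F)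
    (h5 : n * T.q ≤ 2 * q') :
    1 ≤ (T.succ β q' A C).q ∧
    Fintype.card (T.succ β q' A C).I ≤ 3 * (T.succ β q' A C).q ∧
    n * ∑ i : (T.succ β q' A C).I, ((T.succ β q' A C).w i).length ≤ 16 * (T.succ β q' A C).q ∧
    Function.Injective (T.succ β q' A C).pr ∧
    Function.Injective (T.succ β q' A C).po ∧
    (∀ s, (T.succ β q' A C).w ((T.succ β q' A C).pr s) = []) ∧
    (∀ s, (T.succ β q' A C).w ((T.succ β q' A C).po s) = []) ∧
    (∀ s i, (T.succ β q' A C).mx lx ((T.succ β q' A C).pr s) i =
      if i = (T.succ β q' A C).po s then 1 else 0) ∧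
    (∀ t s i, (T.succ β q' A C).mx t ((T.succ β q' A C).po s) i = 0) ∧
    (∀ t i i', (T.succ β q' A C).mx t i i' ≠ 0 →
      ((T.succ β q' A C).w i').length ≤ ((T.succ β q' A C).w i).length + 1) := by
  have hq := hT.q_pos
  have hc := hT.card_le
  have hs := hT.sum_le
  have h6 : 1600 * T.q ≤ n * T.q := Nat.mul_le_mul_right _ hn
  refine ⟨?_, ?_, ?_, ?_, ?_, ?_, ?_, ?_, ?_, ?_⟩
  · change 1 ≤ q'
    omega
  · change Fintype.card (Fin q' ⊕ ((T.I ⊕ T.I) ⊕ Fin q')) ≤ 3 * q'
    simp only [Fintype.card_sum, Fintype.card_fin]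
    omega
  · have e : ∑ i : (T.succ β q' A C).I, ((T.succ β q' A C).w i).length =
        2 * (∑ i : T.I, (T.w i).length) + 2 * Fintype.card T.I := by
      change ∑ i : Fin q' ⊕ ((T.I ⊕ T.I) ⊕ Fin q'), ((T.succ β q' A C).w i).length = _
      rw [Fintype.sum_sum_type, Fintype.sum_sum_type, Fintype.sum_sum_type]
      have e1 : ∑ i : Fin q', ((T.succ β q' A C).w (Sum.inl i)).length = 0 :=
        Finset.sum_eq_zero fun i _ => rfl
      have e2 : ∑ i : Fin q', ((T.succ β q' A C).w (Sum.inr (Sum.inr i))).length = 0 :=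
        Finset.sum_eq_zero fun i _ => rfl
      have e3 : ∑ i : T.I, ((T.succ β q' A C).w (Sum.inr (Sum.inl (Sum.inl i)))).length =
          ∑ i : T.I, ((T.w i).length + 1) := Finset.sum_congr rfl fun i _ => rfl
      have e4 : ∑ i : T.I, ((T.succ β q' A C).w (Sum.inr (Sum.inl (Sum.inr i)))).length =
          ∑ i : T.I, ((T.w i).length + 1) := Finset.sum_congr rfl fun i _ => rfl
      rw [e1, e2, e3, e4, Finset.sum_add_distrib]
      simp only [Finset.sum_const, Finset.card_univ, smul_eq_mul, mul_one]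
      omega
    rw [e]
    change _ ≤ 16 * q'
    have h7 : n * Fintype.card T.I ≤ n * (3 * T.q) := Nat.mul_le_mul_left _ hc
    have h8 : n * (3 * T.q) = 3 * (n * T.q) := by ring
    have h9 : n * (2 * (∑ i : T.I, (T.w i).length) + 2 * Fintype.card T.I) =
        2 * (n * ∑ i : T.I, (T.w i).length) + 2 * (n * Fintype.card T.I) := by ring
    rw [h9]
    omega
  · exact Sum.inl_injective
  · exact Sum.inr_injective.comp Sum.inr_injective
  · intro s
    rfl
  · intro s
    rfl
  · intro (s : Fin q') (i : Fin q' ⊕ ((T.I ⊕ T.I) ⊕ Fin q'))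
    have ho : T.opn lx = (0 : Matrix (Fin n × Fin T.q) (T.I ⊕ T.I) F) := opn_inl T false
    split_ifs with hi
    · subst hi
      change Matrix.fromBlocks 0 (Matrix.fromCols (A * T.opn lx)
        (if (lx : Ltr n) = lx then 1 else 0))
        0 (Matrix.fromBlocks (T.lr β lx) (T.cls lx * C) 0 0) (Sum.inl s)
        (Sum.inr (Sum.inr s)) = 1
      rw [if_pos rfl, Matrix.fromBlocks_apply₁₂, Matrix.fromCols_apply_inr, Matrix.one_apply_eq]
    · change Matrix.fromBlocks 0 (Matrix.fromCols (A * T.opn lx)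
        (if (lx : Ltr n) = lx then 1 else 0))
        0 (Matrix.fromBlocks (T.lr β lx) (T.cls lx * C) 0 0) (Sum.inl s) i = 0
      rcases i with i | (i | i)
      · rw [Matrix.fromBlocks_apply₁₁, Matrix.zero_apply]
      · rw [Matrix.fromBlocks_apply₁₂, Matrix.fromCols_apply_inl, ho, Matrix.mul_zero,
          Matrix.zero_apply]
      · have hne : s ≠ i := by
          rintro rfl
          exact hi rfl
        rw [if_pos rfl, Matrix.fromBlocks_apply₁₂, Matrix.fromCols_apply_inr,
          Matrix.one_apply_ne hne]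
  · intro t s i
    change Matrix.fromBlocks 0 (Matrix.fromCols (A * T.opn t) (if t = lx then 1 else 0))
      0 (Matrix.fromBlocks (T.lr β t) (T.cls t * C) 0 0) (Sum.inr (Sum.inr s)) i = 0
    rcases i with i | (i | i) <;> simp
  · intro t i i' h
    change Matrix.fromBlocks 0 (Matrix.fromCols (A * T.opn t) (if t = lx then 1 else 0))
      0 (Matrix.fromBlocks (T.lr β t) (T.cls t * C) 0 0) i i' ≠ 0 at h
    rcases i' with i' | (i' | i')
    · change 0 ≤ _
      exact Nat.zero_le _
    · rcases i with i | (i | i)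
      · have h' : (A * T.opn t) i i' ≠ 0 := by simpa using h
        rw [Matrix.mul_apply] at h'
        obtain ⟨e, _, he⟩ := Finset.exists_ne_zero_of_sum_ne_zero h'
        obtain ⟨s, rfl⟩ := opn_ne_zero T t e i' (right_ne_zero_of_mul he)
        change (T.w (T.pr s)).length + 1 ≤ 0 + 1
        rw [hT.w_pr]
        simp
      · have h' : T.lr β t i i' ≠ 0 := by simpa using h
        unfold Tr.lr at h'
        rcases i with i | i <;> rcases i' with i' | i'
        · have := hT.depth t i i' (by simpa using h')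
          change (T.w i').length + 1 ≤ (T.w i).length + 1 + 1
          omega
        · have h2 : (if t = lb then T.mid β else 0) i i' ≠ 0 := by simpa using h'
          split_ifs at h2
          · obtain ⟨s, rfl⟩ := mid_ne_zero T β i i' h2
            change (T.w (T.pr s)).length + 1 ≤ (T.w i).length + 1 + 1
            rw [hT.w_pr]
            simp
          · exact absurd rfl h2
        · simp at h'
        · have := hT.depth t i i' (by simpa using h')
          change (T.w i').length + 1 ≤ (T.w i).length + 1 + 1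
          omega
      · simp at h
    · change 0 ≤ _
      exact Nat.zero_le _

end

end EAC
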