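import Pool.Agent.Lib.MP_eac726_al.LA1
import Pool.Agent.Lib.MP_eac726_al.BL1

/-!
# `MP_eac726_al`, module ST1: choice of the middle connection
-/

set_option autoImplicit false
set_option linter.unusedVariables false

namespace EAC

open Matrix

section
variable {F : Type} [Field F] {n m : ℕ} {k : Type} [Field k] [Algebra k F]

/-- entry of a matrix as a linear map -/
def entryL (F : Type) [Field F] {I J : Type} (i : I) (j : J) : Matrix I J F →ₗ[F] F where
  toFun M := M i j
  map_add' _ _ := rfl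
  map_smul' _ _ := rfl

theorem mid_arith {n m c L q r : ℕ} (hn : n = 1600 * m) (h1 : c ≤ 3 * q) (h2 : n * L ≤ 16 * q)
    (h : (q - r) ^ 2 ≤ 2 * m * (c * L)) : 3 * q ≤ 4 * r := by
  have h3 : 100 * (m * L) ≤ q := by
    rw [hn] at h2
    nlinarith
  have h4 : 100 * (2 * m * (c * L)) ≤ 6 * q ^ 2 := by
    calc 100 * (2 * m * (c * L)) = 2 * c * (100 * (m * L)) := by ring
      _ ≤ 2 * (3 * q) * q := Nat.mul_le_mul (Nat.mul_le_mul_left 2 h1) h3
      _ = 6 * q ^ 2 := by ring
  have h5 : 100 * (q - r) ^ 2 ≤ 6 * q ^ 2 := le_trans (Nat.mul_le_mul_left 100 h) h4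
  by_contra hcon
  push Not at hcon
  have h6 : q < 4 * (q - r) := by omega
  have h7 : q ^ 2 < (4 * (q - r)) ^ 2 := Nat.pow_lt_pow_left h6 (by norm_num)
  nlinarith

theorem choose_mid [Infinite F] (hm : 1 ≤ m) (hn : n = 1600 * m)
    (Y : ℕ → (Fin m → R k n)) (T : Tr F n) (j l : ℕ) (hT : Good k Y T j (l + 1)) :
    ∃ β : Matrix (Fin T.q) (Fin T.q) F, 3 * T.q ≤ 4 * β.rank ∧
      ∀ (τ : Fin m → R k n) (e : Fin m) (i i' : T.I),
        hit Y τ (l + 1) (T.w i) ∨ hit Y τ (l + 1) (T.w i') →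
        T.lrRep k β (τ e) (Sum.inl i) (Sum.inr i') = 0 := by
  classical
  choose D hD using fun u : R k n => lrRep_linear T u
  let S : Type := Σ p : T.I × T.I, Fin ((T.w p.1).length + (T.w p.2).length) × Fin m
  let f : S → (Matrix (Fin T.q) (Fin T.q) F →ₗ[F] F) := fun s =>
    (entryL F s.1.1 s.1.2).comp (D (Y (l + 1 + s.2.1) s.2.2))
  obtain ⟨β, hβ1, hβ2⟩ := exists_rank T.q f
  have key : ∀ (h : ℕ) (e : Fin m) (i i' : T.I), h < (T.w i).length + (T.w i').length →
      T.lrRep k β (Y (l + 1 + h) e) (Sum.inl i) (Sum.inr i') = 0 := by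
    intro h e i i' hh
    have h1 := hβ1 ⟨(i, i'), (⟨h, hh⟩, e)⟩
    have h2 : f ⟨(i, i'), (⟨h, hh⟩, e)⟩ β = D (Y (l + 1 + h) e) β i i' := rfl
    rw [h2, ← hD] at h1
    exact h1
  refine ⟨β, ?_, ?_⟩
  · have hcard : Fintype.card S = 2 * m * (Fintype.card T.I * ∑ i : T.I, (T.w i).length) := by
      have h1 : Fintype.card S = ∑ p : T.I × T.I,
          Fintype.card (Fin ((T.w p.1).length + (T.w p.2).length) × Fin m) := Fintype.card_sigma
      rw [h1]
      simp only [Fintype.card_prod, Fintype.card_fin]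
      rw [← Finset.sum_mul, Fintype.sum_prod_type]
      simp only [Finset.sum_add_distrib, Finset.sum_const, Finset.card_univ, smul_eq_mul]
      rw [← Finset.mul_sum]
      ring
    rw [hcard] at hβ2
    exact mid_arith hn hT.card_le hT.sum_le hβ2
  · intro τ e i i' hh
    rcases hh with ⟨h, h1, h2⟩ | ⟨h, h1, h2⟩
    · rw [← h2]
      exact key h e i i' (by omega)
    · rw [← h2]
      exact key h e i i' (by omega)

end

end EAC
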