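import Pool.Agent.Lib.MP_eac726_al.LA2
import Pool.Agent.Lib.MP_eac726_al.LA3

/-! `MP_eac726_al`, module ST2: choice of the opening and closing matrices. -/

namespace EAC

open Matrix

section
variable {F : Type} [Field F] {n m : ℕ} {k : Type} [Field k] [Algebra k F]

/-- index set of the linear conditions -/
abbrev ST2_S (T : Tr F n) (m : ℕ) : Type :=
  (Σ j : T.I ⊕ T.I, Fin (lrw T j).length) × Fin m

omit [Field F] in
theorem ST2_card (T : Tr F n) (m : ℕ) :
    Fintype.card (ST2_S T m) = 2 * (m * (∑ i : T.I, (T.w i).length + Fintype.card T.I)) := by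
  rw [Fintype.card_prod, Fintype.card_sigma, Fintype.card_fin]
  simp only [Fintype.card_fin]
  rw [Fintype.sum_sum_type]
  have h1 : ∀ i : T.I, (lrw T (Sum.inl i)).length = (T.w i).length + 1 := fun _ => rfl
  have h2 : ∀ i : T.I, (lrw T (Sum.inr i)).length = (T.w i).length + 1 := fun _ => rfl
  simp only [h1, h2]
  rw [Finset.sum_add_distrib, Finset.sum_const, Finset.card_univ, smul_eq_mul, mul_one]
  ring

theorem ST2_num {n m q X I rb rt q' : ℕ} (hm : 1 ≤ m) (hn : n = 1600 * m)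
    (h1 : n * rb ≤ rt) (h2 : n * X ≤ 16 * q) (h3 : I ≤ 3 * q) (hβ : 3 * q ≤ 4 * rb)
    (hr : rt ≤ q' + 2 * (m * (X + I)) + 2 * (m * (X + I))) : n * q ≤ 2 * q' := by
  subst hn
  have h5 : 100 * (m * X) ≤ q := by
    have : 16 * (100 * (m * X)) ≤ 16 * q := by
      calc 16 * (100 * (m * X)) = 1600 * m * X := by ring
        _ ≤ 16 * q := h2
    omega
  have h6 : m * I ≤ 3 * (m * q) := by
    calc m * I ≤ m * (3 * q) := Nat.mul_le_mul_left _ h3
      _ = 3 * (m * q) := by ring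
  have h7 : 1600 * m * (3 * q) ≤ 4 * (1600 * m * rb) := by
    calc 1600 * m * (3 * q) ≤ 1600 * m * (4 * rb) := Nat.mul_le_mul_left _ hβ
      _ = 4 * (1600 * m * rb) := by ring
  have h8 : 1600 * m * q = 1600 * (m * q) := by ring
  have h9 : 1600 * m * (3 * q) = 4800 * (m * q) := by ring
  have h10 : q ≤ m * q := Nat.le_mul_of_pos_left _ hm
  have h11 : m * (X + I) = m * X + m * I := Nat.mul_add _ _ _
  rw [h8]
  rw [h9] at h7
  rw [h11] at hr
  omega

theorem choose_ends (hm : 1 ≤ m) (hn : n = 1600 * m)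
    (Y : ℕ → (Fin m → R k n)) (T : Tr F n) (j l : ℕ) (hT : Good k Y T j (l + 1))
    (β : Matrix (Fin T.q) (Fin T.q) F) (hβ : 3 * T.q ≤ 4 * β.rank) :
    ∃ (q' : ℕ) (A : Matrix (Fin q') (Fin n × Fin T.q) F) (C : Matrix (Fin n × Fin T.q) (Fin q') F),
      n * T.q ≤ 2 * q' ∧ A * tens n β * C = 1 ∧
      (∀ (τ : Fin m → R k n) (e : Fin m) (j : T.I ⊕ T.I), hit Y τ l (lrw T j) →
        ∀ s, (A * T.So k β (τ e)) s j = 0) ∧
      (∀ (τ : Fin m → R k n) (e : Fin m) (j : T.I ⊕ T.I), hit Y τ l (lrw T j) →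
        ∀ s, (T.Sc k β (τ e) * C) j s = 0) := by
  obtain ⟨q', A, C, hA, hC, hAC, hr⟩ := exists_split (S := ST2_S T m) (S' := ST2_S T m)
    (tens n β)
    (fun p r => T.So k β (Y (l + p.1.2) p.2) r p.1.1)
    (fun p r => T.Sc k β (Y (l + p.1.2) p.2) p.1.1 r)
  refine ⟨q', A, C, ?_, hAC, ?_, ?_⟩
  · rw [ST2_card] at hr
    exact ST2_num hm hn (rank_tens_ge n β) hT.sum_le hT.card_le hβ hr
  · rintro τ e j ⟨h, hh, hY⟩ s
    have := congrFun (hA (⟨j, ⟨h, hh⟩⟩, e)) s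
    simp only [hY] at this
    exact this
  · rintro τ e j ⟨h, hh, hY⟩ s
    have := congrFun (hC (⟨j, ⟨h, hh⟩⟩, e)) s
    simp only [hY] at this
    exact this

end

end EAC
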