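import Pool.Agent.Lib.MP_eac726_al.ST1
import Pool.Agent.Lib.MP_eac726_al.ST2
import Pool.Agent.Lib.MP_eac726_al.SG1
import Pool.Agent.Lib.MP_eac726_al.SG2
import Pool.Agent.Lib.MP_eac726_al.SG3
import Pool.Agent.Lib.MP_eac726_al.SG4
import Pool.Agent.Lib.MP_eac726_al.BG

namespace EAC

open Matrix

theorem exists_tree_aux {F : Type} [Field F] {n m : ℕ} {k : Type} [Field k] [Algebra k F]
    [Infinite F] (hm : 1 ≤ m) (hn : n = 1600 * m)
    (Y : ℕ → (Fin m → R k n)) (j l : ℕ) : ∃ T : Tr F n, Good k Y T j l ∧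
      ∀ i s, T.mx lx i (T.po s) = if i = T.pr s then 1 else 0 := by
  induction j generalizing l with
  | zero => exact ⟨Tr.base F n, base_good Y l, base_xpo F n⟩
  | succ j ih =>
    obtain ⟨T, hT, hx⟩ := ih (l + 1)
    obtain ⟨β, hβ, h1⟩ := choose_mid hm hn Y T j l hT
    obtain ⟨q', A, C, h5, h4, h2, h3⟩ := choose_ends hm hn Y T j l hT β hβ
    obtain ⟨r1, r2, r3, r4, r5, r6, r7, r8, r9, r10⟩ :=
      succ_rest Y T j (l + 1) hT (by omega) β q' A C h5
    exact ⟨T.succ β q' A C,
      { q_pos := r1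
        card_le := r2
        sum_le := r3
        pr_inj := r4
        po_inj := r5
        w_pr := r6
        w_po := r7
        x_pr := r8
        po_row := r9
        depth := r10
        rel := succ_rel Y T j (l + 1) hT hx β q' A C h4
        order := succ_order Y T j (l + 1) hT β q' A C
        kill := succ_kill Y T j l hT β q' A C h1 h2 h3 }, succ_xpo T β q' A C⟩

theorem exists_tree {F : Type} [Field F] {n m : ℕ} {k : Type} [Field k] [Algebra k F]
    [Infinite F] (hm : 1 ≤ m) (hn : n = 1600 * m)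
    (Y : ℕ → (Fin m → R k n)) (j l : ℕ) : ∃ T : Tr F n, Good k Y T j l := by
  obtain ⟨T, hT, -⟩ := exists_tree_aux (F := F) hm hn Y j l
  exact ⟨T, hT⟩

end EAC
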